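import Mathlib

/-!
# Project GE (MP_54c2ef_al): good endomorphisms of free algebras. Definitions and basic lemmas.

`FA K n` is the free associative algebra on `x_i = FreeAlgebra.ι K i`, `ev X a` is the value of `a` at a
tuple `X` of matrices, `Dd X Y H a` is the derivative: the corner of the value of `a` at the tuple of block
matrices `[[X i, H i], [0, Y i]]`; for a word `w` it is `∑ X_u H_j Y_v` over `w = u x_j v`.
-/

set_option autoImplicit false
set_option linter.all false

universe u

namespace Pool.Agent.Helper28H.GE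

open Matrix

/-- The free associative algebra in `n` variables. -/
abbrev FA (K : Type u) [Field K] (n : ℕ) : Type u := FreeAlgebra K (Fin n)

/-- The augmentation: the constant term. -/
noncomputable def aug (K : Type u) [Field K] (n : ℕ) : FA K n →ₐ[K] K :=
  FreeAlgebra.lift K (fun _ => (0 : K))

/-- The elements with zero constant term; `augI K n ^ m` is spanned by the products of `m` of them. -/
noncomputable def augI (K : Type u) [Field K] (n : ℕ) : Submodule K (FA K n) :=
  LinearMap.ker (aug K n).toLinearMap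

section

variable {K : Type u} [Field K] {n : ℕ} {S : Type u} [CommRing S] [Algebra K S]
  {p q : Type} [Fintype p] [DecidableEq p] [Fintype q] [DecidableEq q]

/-- The value at a tuple of matrices. -/
noncomputable def ev (X : Fin n → Matrix p p S) : FA K n →ₐ[K] Matrix p p S :=
  FreeAlgebra.lift K X

/-- The tuple of block matrices. -/
def blk (X : Fin n → Matrix p p S) (Y : Fin n → Matrix q q S) (H : Fin n → Matrix p q S) :
    Fin n → Matrix (p ⊕ q) (p ⊕ q) S := fun i => fromBlocks (X i) (H i) 0 (Y i)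

/-- The derivative of `a` at `(X, Y)` in the direction `H`. -/
noncomputable def Dd (X : Fin n → Matrix p p S) (Y : Fin n → Matrix q q S)
    (H : Fin n → Matrix p q S) (a : FA K n) : Matrix p q S := (ev (blk X Y H) a).toBlocks₁₂

@[simp] theorem ev_ι (X : Fin n → Matrix p p S) (i : Fin n) :
    ev (K := K) X (FreeAlgebra.ι K i) = X i := by simp [ev]

@[simp] theorem aug_ι (i : Fin n) : aug K n (FreeAlgebra.ι K i) = 0 := by simp [aug]

theorem tri (X : Fin n → Matrix p p S) (Y : Fin n → Matrix q q S) (H : Fin n → Matrix p q S)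
    (a : FA K n) :
    ev (blk X Y H) a = fromBlocks (ev X a) (Dd X Y H a) 0 (ev Y a) := by
  have key : ∃ B, ev (blk X Y H) a = fromBlocks (ev X a) B 0 (ev Y a) := by
    induction a using FreeAlgebra.induction with
    | grade0 r =>
      refine ⟨0, ?_⟩
      simp only [AlgHom.commutes]
      rw [Algebra.algebraMap_eq_smul_one, Algebra.algebraMap_eq_smul_one,
        Algebra.algebraMap_eq_smul_one, ← fromBlocks_one, fromBlocks_smul, smul_zero, smul_zero]
    | grade1 i => exact ⟨H i, by simp [blk]⟩
    | mul a b ha hb =>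
      obtain ⟨A, hA⟩ := ha
      obtain ⟨B, hB⟩ := hb
      refine ⟨ev X a * B + A * ev Y b, ?_⟩
      rw [map_mul, hA, hB, fromBlocks_multiply]
      simp
    | add a b ha hb =>
      obtain ⟨A, hA⟩ := ha
      obtain ⟨B, hB⟩ := hb
      refine ⟨A + B, ?_⟩
      rw [map_add, hA, hB, fromBlocks_add]
      simp
  obtain ⟨B, hB⟩ := key
  rw [Dd, hB, toBlocks_fromBlocks₁₂]

variable (X : Fin n → Matrix p p S) (Y : Fin n → Matrix q q S) (H H' : Fin n → Matrix p q S)

@[simp] theorem Dd_ι (i : Fin n) : Dd (K := K) X Y H (FreeAlgebra.ι K i) = H i := by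
  simp [Dd, blk]

@[simp] theorem Dd_algebraMap (c : K) : Dd X Y H (algebraMap K (FA K n) c) = 0 := by
  rw [Dd, AlgHom.commutes, Algebra.algebraMap_eq_smul_one, ← fromBlocks_one, fromBlocks_smul,
    toBlocks_fromBlocks₁₂, smul_zero]

theorem Dd_mul (a b : FA K n) : Dd X Y H (a * b) = ev X a * Dd X Y H b + Dd X Y H a * ev Y b := by
  have h := tri X Y H (a * b)
  rw [map_mul, tri, tri, fromBlocks_multiply] at h
  have h2 := congrArg Matrix.toBlocks₁₂ h
  rw [toBlocks_fromBlocks₁₂, toBlocks_fromBlocks₁₂] at h2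
  exact h2.symm

theorem Dd_add (a b : FA K n) : Dd X Y H (a + b) = Dd X Y H a + Dd X Y H b := by
  rw [Dd, map_add]
  rfl

theorem Dd_sub (a b : FA K n) : Dd X Y H (a - b) = Dd X Y H a - Dd X Y H b := by
  rw [Dd, map_sub]
  rfl

theorem Dd_smul (c : K) (a : FA K n) : Dd X Y H (c • a) = c • Dd X Y H a := by
  rw [Dd, map_smul]
  rfl

theorem Dd_lin_add (a : FA K n) :
    Dd X Y (fun i => H i + H' i) a = Dd X Y H a + Dd X Y H' a := by
  induction a using FreeAlgebra.induction with
  | grade0 r => simp
  | grade1 i => simp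
  | mul a b ha hb =>
    rw [Dd_mul, Dd_mul, Dd_mul, ha, hb, Matrix.mul_add, Matrix.add_mul]
    abel
  | add a b ha hb =>
    rw [Dd_add, Dd_add, Dd_add, ha, hb]
    abel

theorem Dd_lin_smul (s : S) (a : FA K n) :
    Dd X Y (fun i => s • H i) a = s • Dd X Y H a := by
  induction a using FreeAlgebra.induction with
  | grade0 r => simp
  | grade1 i => simp
  | mul a b ha hb =>
    rw [Dd_mul, Dd_mul, ha, hb, Matrix.mul_smul, Matrix.smul_mul, smul_add]
  | add a b ha hb => rw [Dd_add, Dd_add, ha, hb, smul_add]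

/-- The finite difference is the derivative at the pair of points. -/
theorem Dd_diff (X Y : Fin n → Matrix p p S) (a : FA K n) :
    Dd X Y (fun i => X i - Y i) a = ev X a - ev Y a := by
  induction a using FreeAlgebra.induction with
  | grade0 r => simp
  | grade1 i => simp
  | mul a b ha hb =>
    rw [Dd_mul, ha, hb, map_mul, map_mul]
    noncomm_ring
  | add a b ha hb =>
    rw [Dd_add, ha, hb, map_add, map_add]
    abel

theorem ev_comp (φ : FA K n →ₐ[K] FA K n) (a : FA K n) :
    ev X (φ a) = ev (fun i => ev X (φ (FreeAlgebra.ι K i))) a := by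
  have h : (ev X).comp φ = ev (K := K) (fun i => ev X (φ (FreeAlgebra.ι K i))) := by
    apply FreeAlgebra.hom_ext
    funext i
    simp
  exact DFunLike.congr_fun h a

/-- The chain rule. -/
theorem Dd_comp (φ : FA K n →ₐ[K] FA K n) (a : FA K n) :
    Dd X Y H (φ a) = Dd (fun i => ev X (φ (FreeAlgebra.ι K i))) (fun i => ev Y (φ (FreeAlgebra.ι K i)))
      (fun i => Dd X Y H (φ (FreeAlgebra.ι K i))) a := by
  rw [Dd, ev_comp, Dd]
  congr 2
  congr 1
  funext i
  exact tri X Y H (φ (FreeAlgebra.ι K i))

/-- Base change. -/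
theorem ev_map {S' : Type u} [CommRing S'] [Algebra K S'] (σ : S →ₐ[K] S') (a : FA K n) :
    ev (fun i => (X i).map σ) a = (ev X a).map σ := by
  have h : ev (K := K) (fun i => (X i).map σ) = (σ.mapMatrix).comp (ev X) := by
    apply FreeAlgebra.hom_ext
    funext i
    simp
  rw [h]
  rfl

theorem Dd_map {S' : Type u} [CommRing S'] [Algebra K S'] (σ : S →ₐ[K] S') (a : FA K n) :
    Dd (fun i => (X i).map σ) (fun i => (Y i).map σ) (fun i => (H i).map σ) a =
      (Dd X Y H a).map σ := by
  rw [Dd, Dd]
  have h : blk (fun i => (X i).map σ) (fun i => (Y i).map σ) (fun i => (H i).map σ) =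
      fun i => (blk X Y H i).map σ := by
    funext i
    simp [blk, fromBlocks_map]
  rw [h, ev_map]
  rfl

end

/-- `φ` is good: for every `m` it is `ψ α` with an automorphism `α` and `ψ` congruent to the identity modulo
`I ^ m`. -/
def Good {K : Type u} [Field K] {n : ℕ} (φ : FA K n →ₐ[K] FA K n) : Prop :=
  ∀ m : ℕ, 1 ≤ m → ∃ (ψ : FA K n →ₐ[K] FA K n) (α : FA K n ≃ₐ[K] FA K n),
    (∀ a, φ a = ψ (α a)) ∧ ∀ i, ψ (FreeAlgebra.ι K i) - FreeAlgebra.ι K i ∈ augI K n ^ m

/-- The derivative of `φ` is injective at all pairs of tuples of matrices over all fields. -/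
def INV {K : Type u} [Field K] {n : ℕ} (φ : FA K n →ₐ[K] FA K n) : Prop :=
  ∀ (C : Type u) [Field C] [Algebra K C] (p q : Type) [Fintype p] [DecidableEq p] [Fintype q]
    [DecidableEq q] (X : Fin n → Matrix p p C) (Y : Fin n → Matrix q q C)
    (H : Fin n → Matrix p q C),
    (∀ i, Dd X Y H (φ (FreeAlgebra.ι K i)) = 0) → H = 0

end Pool.Agent.Helper28H.GE
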