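import Pool.Agent.Helper28H.GE.Stm

/-!
# Project GE, piece EQA (helper33): the cyclic algebra is a division algebra

We take the fraction field `C` of `L[τ]` (instead of Laurent series). For `M ∈ M_q(L[τ])` with `U M = σ(M) U`
and a vector `v ≠ 0` with `v M = 0`: modulo `τ` the matrix `M` is upper triangular with the diagonal
`σ^i(M 0 0)`, so `M 0 0` is divisible by `τ` and `M = M₁ U` with `M₁` of the same kind; so `M` is divisible by
all powers of `τ`.
-/

set_option autoImplicit false
set_option linter.all false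

universe u

namespace Pool.Agent.Helper28H.GE

namespace EQAp

open Matrix Polynomial

/-- `τ` in the last row, `1` in the others -/
noncomputable def uu {R : Type*} [CommRing R] {p : ℕ} (t : R) (i : Fin (p + 1)) : R :=
  if i = Fin.last p then t else 1

/-- The matrix `U`. -/
noncomputable def UU {R : Type*} [CommRing R] (p : ℕ) (t : R) :
    Matrix (Fin (p + 1)) (Fin (p + 1)) R :=
  Matrix.of fun i k => if k = i + 1 then uu t i else 0

theorem UU_mul {R : Type*} [CommRing R] {p : ℕ} (t : R) (M : Matrix (Fin (p + 1)) (Fin (p + 1)) R)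
    (i k : Fin (p + 1)) : (UU p t * M) i k = uu t i * M (i + 1) k := by
  simp [UU, Matrix.mul_apply]

theorem mul_UU {R : Type*} [CommRing R] {p : ℕ} (t : R) (M : Matrix (Fin (p + 1)) (Fin (p + 1)) R)
    (i k : Fin (p + 1)) : (M * UU p t) i (k + 1) = M i k * uu t k := by
  simp [UU, Matrix.mul_apply]

theorem uu_ne {R : Type*} [CommRing R] [Nontrivial R] {p : ℕ} {t : R} (ht : t ≠ 0) (i : Fin (p + 1)) :
    uu t i ≠ 0 := by
  unfold uu; split_ifs
  · exact ht
  · exact one_ne_zero

theorem step {L : Type u} [Field L] {p : ℕ} (σ : L →+* L) (v : Fin (p + 1) → L[X]) (hv : v ≠ 0)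
    (M : Matrix (Fin (p + 1)) (Fin (p + 1)) L[X])
    (hM : ∀ i k, uu X i * M (i + 1) (k + 1) = (M i k).map σ * uu X k) (h0 : v ᵥ* M = 0) :
    ∃ M₁ : Matrix (Fin (p + 1)) (Fin (p + 1)) L[X],
      (∀ i k, uu X i * M₁ (i + 1) (k + 1) = (M₁ i k).map σ * uu X k) ∧ v ᵥ* M₁ = 0 ∧
      ∀ i k, M i (k + 1) = M₁ i k * uu X k := by
  have a1 : ∀ i k, i ≠ Fin.last p → k ≠ Fin.last p →
      (M (i + 1) (k + 1)).coeff 0 = σ ((M i k).coeff 0) := by
    intro i k hi hk
    have h := congrArg (fun f => Polynomial.coeff f 0) (hM i k)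
    simpa [uu, hi, hk] using h
  have a2 : ∀ i, i ≠ Fin.last p → (M (i + 1) 0) = (M i (Fin.last p)).map σ * X := by
    intro i hi
    have h := hM i (Fin.last p)
    simpa [uu, hi, Fin.last_add_one] using h
  have key : (M 0 0).coeff 0 = 0 := by
    by_contra hne
    set m : Matrix (Fin (p + 1)) (Fin (p + 1)) L := M.map (constantCoeff : L[X] →+* L) with hm
    have hmc : ∀ i k, m i k = (M i k).coeff 0 := fun i k => rfl
    have tri : ∀ k i : Fin (p + 1), k < i → m i k = 0 := by
      intro k
      induction k using Fin.induction with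
      | zero =>
        intro i hi
        obtain ⟨i', rfl⟩ := Fin.exists_succ_eq.2 (ne_of_gt hi)
        rw [hmc, ← Fin.coeSucc_eq_succ, a2 _ (Fin.castSucc_ne_last i')]
        simp
      | succ k ih =>
        intro i hi
        have hi0 : i ≠ 0 := ne_of_gt (lt_of_le_of_lt (Fin.zero_le _) hi)
        obtain ⟨i', rfl⟩ := Fin.exists_succ_eq.2 hi0
        have h1 := ih i'.castSucc (by
          rw [Fin.castSucc_lt_castSucc_iff]
          exact Fin.succ_lt_succ_iff.1 hi)
        rw [hmc, ← Fin.coeSucc_eq_succ, ← Fin.coeSucc_eq_succ,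
          a1 _ _ (Fin.castSucc_ne_last i') (Fin.castSucc_ne_last k), ← hmc, h1, map_zero]
    have dia : ∀ k : Fin (p + 1), m k k ≠ 0 := by
      intro k
      induction k using Fin.induction with
      | zero => exact hne
      | succ k ih =>
        rw [hmc, ← Fin.coeSucc_eq_succ,
          a1 _ _ (Fin.castSucc_ne_last k) (Fin.castSucc_ne_last k), ← hmc]
        exact fun h => ih ((map_eq_zero σ).1 h)
    have hdet : m.det ≠ 0 := by
      rw [Matrix.det_of_upperTriangular (fun i k h => tri k i h)]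
      exact Finset.prod_ne_zero_iff.2 fun i _ => dia i
    have hdet' : M.det ≠ 0 := by
      intro h
      apply hdet
      have := RingHom.map_det (constantCoeff : L[X] →+* L) M
      rw [h, map_zero] at this
      exact this.symm
    exact hv (Matrix.eq_zero_of_vecMul_eq_zero hdet' h0)
  have hX : ∀ i, ∃ N : L[X], M i 0 = N * X := by
    intro i
    by_cases hi : i = 0
    · subst hi
      obtain ⟨N, hN⟩ := X_dvd_iff.2 key
      exact ⟨N, by rw [hN, mul_comm]⟩
    · obtain ⟨i', rfl⟩ := Fin.exists_succ_eq.2 hi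
      rw [← Fin.coeSucc_eq_succ]
      exact ⟨_, a2 _ (Fin.castSucc_ne_last i')⟩
  choose N hN using hX
  set M₁ : Matrix (Fin (p + 1)) (Fin (p + 1)) L[X] :=
    Matrix.of fun i k => if k = Fin.last p then N i else M i (k + 1) with hM₁
  have h1 : ∀ i k, M i (k + 1) = M₁ i k * uu X k := by
    intro i k
    by_cases hk : k = Fin.last p
    · subst hk
      simp [hM₁, uu, Fin.last_add_one, hN]
    · simp [hM₁, uu, hk]
  refine ⟨M₁, ?_, ?_, h1⟩
  · intro i k
    have h2 := hM i (k + 1)
    rw [h1 (i + 1) (k + 1), h1 i k, Polynomial.map_mul] at h2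
    have h3 : (uu X k : L[X]).map σ = uu X k := by
      unfold uu; split_ifs <;> simp
    rw [h3] at h2
    exact mul_right_cancel₀ (uu_ne X_ne_zero (k + 1)) (by rw [mul_assoc, h2])
  · ext1 k
    have h2 := congrFun h0 (k + 1)
    have h3 : (v ᵥ* M) (k + 1) = (v ᵥ* M₁) k * uu X k := by
      simp only [Matrix.vecMul, dotProduct, h1, Finset.sum_mul, mul_assoc]
    rw [h3] at h2
    exact (mul_eq_zero.1 h2).resolve_right (uu_ne X_ne_zero k)

theorem dvd_all {L : Type u} [Field L] {p : ℕ} (σ : L →+* L) (v : Fin (p + 1) → L[X]) (hv : v ≠ 0)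
    (n : ℕ) : ∀ M : Matrix (Fin (p + 1)) (Fin (p + 1)) L[X],
    (∀ i k, uu X i * M (i + 1) (k + 1) = (M i k).map σ * uu X k) → v ᵥ* M = 0 →
    ∀ k i, (X : L[X]) ^ n ∣ M i k := by
  induction n with
  | zero => intro M _ _ k i; simp
  | succ n ih =>
    intro M hM h0 k
    induction k using Fin.induction generalizing M with
    | zero =>
      intro i
      obtain ⟨M₁, h1, h2, h3⟩ := step σ v hv M hM h0
      have h4 := h3 i (Fin.last p)
      rw [Fin.last_add_one] at h4
      rw [h4, pow_succ]
      refine mul_dvd_mul (ih M₁ h1 h2 _ _) ?_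
      simp [uu]
    | succ k ihk =>
      intro i
      obtain ⟨M₁, h1, h2, h3⟩ := step σ v hv M hM h0
      have h4 := h3 i k.castSucc
      rw [Fin.coeSucc_eq_succ] at h4
      rw [h4]
      exact Dvd.dvd.mul_right (ihk M₁ h1 h2 i) _

theorem eq_zero {L : Type u} [Field L] {p : ℕ} (σ : L →+* L)
    (M : Matrix (Fin (p + 1)) (Fin (p + 1)) L[X])
    (hM : ∀ i k, uu X i * M (i + 1) (k + 1) = (M i k).map σ * uu X k) (h0 : M.det = 0) : M = 0 := by
  obtain ⟨v, hv, h⟩ := Matrix.exists_vecMul_eq_zero_iff.2 h0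
  ext i k d
  have := X_pow_dvd_iff.1 (dvd_all σ v hv (d + 1) M hM h k i) d (Nat.lt_succ_self d)
  simpa using this

theorem map_UU {R S : Type*} [CommRing R] [CommRing S] (p : ℕ) (t : R) (f : R →+* S) :
    (UU p t).map f = UU p (f t) := by
  ext i k
  simp only [UU, uu, Matrix.map_apply, Matrix.of_apply]
  split_ifs <;> simp

theorem uu_map {R S : Type*} [CommRing R] [CommRing S] {p : ℕ} (t : R) (f : R →+* S)
    (i : Fin (p + 1)) : f (uu t i) = uu (f t) i := by
  unfold uu; split_ifs <;> simp

theorem norm_fix {R : Type*} [CommRing R] [IsDomain R] (s : R →+* R) (q : ℕ)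
    (hs : ∀ x, s^[q] x = x) (d : R) (hd : d ≠ 0) :
    s (∏ i ∈ Finset.range q, s^[i] d) = ∏ i ∈ Finset.range q, s^[i] d := by
  have h1 : s (∏ i ∈ Finset.range q, s^[i] d) = ∏ i ∈ Finset.range q, s^[i + 1] d := by
    rw [map_prod]
    exact Finset.prod_congr rfl fun i _ => (Function.iterate_succ_apply' s i d).symm
  have h2 := Finset.prod_range_succ' (fun i => s^[i] d) q
  rw [Finset.prod_range_succ, hs] at h2
  rw [h1]
  exact (mul_right_cancel₀ hd h2).symm

theorem mainE {K : Type u} [Field K] {L : Type u} [Field L] [Algebra K L] (σ : L ≃ₐ[K] L)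
    (p : ℕ) (hσ : ∀ x, (σ ^ (p + 1)) x = x) {C : Type u} [Field C] [Algebra K C]
    (ρ : L[X] →+* C) (hρ : Function.Injective ρ) (j : L →ₐ[K] C)
    (hj : ∀ a, j a = ρ (Polynomial.C a)) (σC : C →+* C)
    (hσC : ∀ x, σC (ρ x) = ρ (x.map (σ : L →+* L)))
    (hden : ∀ f : Fin (p + 1) × Fin (p + 1) → C, ∃ d : L[X], d ≠ 0 ∧ ∀ i, ∃ r, ρ r = ρ d * f i) :
    ∃ (τ : C) (E : Subalgebra K (Matrix (Fin (p + 1)) (Fin (p + 1)) C)),
    (∀ M ∈ E, M ≠ 0 → ∃ M' ∈ E, M * M' = 1 ∧ M' * M = 1) ∧
    ∀ a : L, (Matrix.of fun i k : Fin (p + 1) => if (k : ℕ) = (i : ℕ) + 1 then j ((σ ^ (i : ℕ)) a)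
      else if (i : ℕ) + 1 = p + 1 ∧ (k : ℕ) = 0 then j ((σ ^ (i : ℕ)) a) * τ else 0) ∈ E := by
  have hK : ∀ r : K, σC (algebraMap K C r) = algebraMap K C r := by
    intro r
    rw [← j.commutes r, hj, hσC, Polynomial.map_C]
    simp
  have hσj : ∀ a, σC (j a) = j (σ a) := by
    intro a
    rw [hj, hσC, Polynomial.map_C, hj]; rfl
  have hτ : σC (ρ X) = ρ X := by rw [hσC, Polynomial.map_X]
  have hτ0 : ρ X ≠ 0 := fun h => X_ne_zero (hρ (by rw [h, map_zero]))
  let E : Subalgebra K (Matrix (Fin (p + 1)) (Fin (p + 1)) C) :=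
    { carrier := {M | UU p (ρ X) * M = M.map σC * UU p (ρ X)}
      mul_mem' := by
        intro M M' h h'
        simp only [Set.mem_setOf_eq] at h h' ⊢
        rw [← Matrix.mul_assoc, h, Matrix.mul_assoc, h', ← Matrix.mul_assoc, Matrix.map_mul]
      add_mem' := by
        intro M M' h h'
        simp only [Set.mem_setOf_eq] at h h' ⊢
        rw [Matrix.mul_add, h, h', Matrix.map_add _ (map_add σC), Matrix.add_mul]
      algebraMap_mem' := by
        intro r
        simp only [Set.mem_setOf_eq]
        have : (algebraMap K (Matrix (Fin (p + 1)) (Fin (p + 1)) C) r).map σC =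
            algebraMap K (Matrix (Fin (p + 1)) (Fin (p + 1)) C) r := by
          ext i k
          simp only [Matrix.map_apply, Matrix.algebraMap_matrix_apply]
          split_ifs
          · exact hK r
          · exact map_zero _
        rw [this]
        exact (Algebra.commutes r (UU p (ρ X))).symm }
  have hE : ∀ M, M ∈ E ↔ UU p (ρ X) * M = M.map σC * UU p (ρ X) := fun M => Iff.rfl
  refine ⟨ρ X, E, ?_, ?_⟩
  · intro M hM hM0
    have hdet : M.det ≠ 0 := by
      intro hd0
      obtain ⟨d, hd, hdd⟩ := hden fun x => M x.1 x.2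
      let σR : L[X] →+* L[X] := Polynomial.mapRingHom (σ : L →+* L)
      have hit : ∀ (n : ℕ) (x : L[X]), σR^[n] x = x.map ((σ ^ n : L ≃ₐ[K] L) : L →+* L) := by
        intro n
        induction n with
        | zero =>
          intro x
          rw [Function.iterate_zero_apply]
          have : ((σ ^ 0 : L ≃ₐ[K] L) : L →+* L) = RingHom.id L := by
            ext a; simp
          rw [this, Polynomial.map_id]
        | succ n ih =>
          intro x
          rw [Function.iterate_succ_apply', ih]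
          change (Polynomial.map _ _).map _ = _
          rw [Polynomial.map_map]
          congr 1
          ext a
          simp [pow_succ']
      have hper : ∀ x, σR^[p + 1] x = x := by
        intro x
        rw [hit]
        have : ((σ ^ (p + 1) : L ≃ₐ[K] L) : L →+* L) = RingHom.id L := by
          ext a; simpa using hσ a
        rw [this, Polynomial.map_id]
      have hσRi : Function.Injective σR := Polynomial.map_injective _ (RingHom.injective _)
      set D : L[X] := ∏ i ∈ Finset.range (p + 1), σR^[i] d with hD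
      have hDf : σR D = D := norm_fix σR (p + 1) hper d hd
      have hD0 : D ≠ 0 := by
        rw [hD]
        refine Finset.prod_ne_zero_iff.2 fun i _ => ?_
        intro h
        apply hd
        have : σR^[i] d = σR^[i] 0 := by rw [h, hit, Polynomial.map_zero]
        exact (hσRi.iterate i) this
      have hdD : d ∣ D := by
        have := Finset.dvd_prod_of_mem (fun i => σR^[i] d) (Finset.mem_range.2 (Nat.succ_pos p))
        simpa using this
      obtain ⟨e, he⟩ := hdD
      have hM₀ : ∀ i k, ∃ r, ρ r = ρ D * M i k := by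
        intro i k
        obtain ⟨r, hr⟩ := hdd (i, k)
        exact ⟨r * e, by rw [map_mul, hr, he, map_mul]; ring⟩
      choose M₀ hM₀ using hM₀
      have hrel : ∀ i k, uu X i * M₀ (i + 1) (k + 1) = (M₀ i k).map (σ : L →+* L) * uu X k := by
        intro i k
        apply hρ
        rw [map_mul, map_mul, hM₀, ← hσC, hM₀, map_mul, hσC D, uu_map, uu_map]
        have h1 := congrFun (congrFun ((hE M).1 hM) i) (k + 1)
        rw [UU_mul, mul_UU] at h1
        have h2 : (D.map (σ : L →+* L)) = D := hDf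
        rw [h2]
        calc uu (ρ X) i * (ρ D * M (i + 1) (k + 1)) = ρ D * (uu (ρ X) i * M (i + 1) (k + 1)) := by ring
          _ = ρ D * (M.map σC i k * uu (ρ X) k) := by rw [h1]
          _ = _ := by rw [Matrix.map_apply]; ring
      have hdet0 : (Matrix.of M₀).det = 0 := by
        apply hρ
        rw [RingHom.map_det, map_zero]
        have : ρ.mapMatrix (Matrix.of M₀) = ρ D • M := by
          ext i k
          simp [hM₀]
        rw [this, Matrix.det_smul, hd0, mul_zero]
      have hz := eq_zero (σ : L →+* L) (Matrix.of M₀) hrel hdet0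
      apply hM0
      ext i k
      have h3 := hM₀ i k
      have h4 : M₀ i k = 0 := congrFun (congrFun hz i) k
      rw [h4, map_zero] at h3
      have h5 : ρ D ≠ 0 := fun h => hD0 (hρ (by rw [h, map_zero]))
      simpa using (mul_eq_zero.1 h3.symm).resolve_left h5
    have hu : IsUnit M.det := isUnit_iff_ne_zero.2 hdet
    refine ⟨M⁻¹, ?_, Matrix.mul_nonsing_inv M hu, Matrix.nonsing_inv_mul M hu⟩
    rw [hE]
    have h1 := (hE M).1 hM
    have h2 : M⁻¹.map σC * M.map σC = 1 := by
      rw [← Matrix.map_mul, Matrix.nonsing_inv_mul M hu]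
      simp
    calc UU p (ρ X) * M⁻¹ = M⁻¹.map σC * M.map σC * (UU p (ρ X) * M⁻¹) := by rw [h2, Matrix.one_mul]
      _ = M⁻¹.map σC * (M.map σC * UU p (ρ X)) * M⁻¹ := by simp only [Matrix.mul_assoc]
      _ = M⁻¹.map σC * (UU p (ρ X) * M) * M⁻¹ := by rw [h1]
      _ = M⁻¹.map σC * UU p (ρ X) * (M * M⁻¹) := by simp only [Matrix.mul_assoc]
      _ = _ := by rw [Matrix.mul_nonsing_inv M hu, Matrix.mul_one]
  · intro a
    have hD : Matrix.diagonal (fun i : Fin (p + 1) => j ((σ ^ (i : ℕ)) a)) ∈ E := by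
      rw [hE]
      ext i k'
      obtain ⟨k, rfl⟩ : ∃ k, k' = k + 1 := ⟨k' - 1, by simp⟩
      rw [UU_mul, mul_UU, Matrix.map_apply, Matrix.diagonal_apply, Matrix.diagonal_apply]
      by_cases hik : i = k
      · subst hik
        rw [if_pos rfl, if_pos rfl, hσj, mul_comm]
        congr 2
        rw [Fin.val_add_one]
        split_ifs with h
        · subst h
          have := hσ a
          rw [pow_succ'] at this
          simpa using this.symm
        · rw [pow_succ']; rfl
      · rw [if_neg hik, if_neg (fun h => hik (add_right_cancel h)), map_zero, mul_zero, zero_mul]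
    have hU : UU p (ρ X) ∈ E := by
      rw [hE, map_UU, hτ]
    have hY := E.mul_mem hD hU
    convert hY using 1
    ext i k
    rw [Matrix.diagonal_mul, Matrix.of_apply, UU, Matrix.of_apply]
    have hk : k = i + 1 ↔ ((k : ℕ) = (i : ℕ) + 1 ∧ i ≠ Fin.last p) ∨ (i = Fin.last p ∧ (k : ℕ) = 0) := by
      rw [Fin.ext_iff, Fin.val_add_one]
      split_ifs with h <;> simp [h]
    have hil : (i : ℕ) + 1 = p + 1 ↔ i = Fin.last p := by
      rw [Fin.ext_iff, Fin.val_last]; omega
    have hkl := k.isLt
    by_cases h1 : (k : ℕ) = (i : ℕ) + 1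
    · have h2 : i ≠ Fin.last p := by
        intro h; subst h; rw [Fin.val_last] at h1; omega
      rw [if_pos h1, if_pos (hk.2 (Or.inl ⟨h1, h2⟩)), uu, if_neg h2, mul_one]
    · rw [if_neg h1]
      by_cases h2 : (i : ℕ) + 1 = p + 1 ∧ (k : ℕ) = 0
      · rw [if_pos h2, if_pos (hk.2 (Or.inr ⟨hil.1 h2.1, h2.2⟩)), uu, if_pos (hil.1 h2.1)]
      · rw [if_neg h2, if_neg, mul_zero]
        rw [hk]
        rintro (⟨h, -⟩ | ⟨h, h'⟩)
        · exact h1 h
        · exact h2 ⟨hil.2 h, h'⟩

end EQAp

theorem t_EQA : S_EQA.{u} := by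
  intro K _ L _ _ σ q hq hσ
  obtain ⟨p, rfl⟩ : ∃ p, q = p + 1 := ⟨q - 1, by omega⟩
  let σL : L →+* L := (σ : L →+* L)
  have hσR : Function.Injective (Polynomial.mapRingHom σL) :=
    Polynomial.map_injective _ σL.injective
  let C := FractionRing (Polynomial L)
  let σC : C →+* C := IsFractionRing.map hσR
  letI : Algebra K C :=
    ((algebraMap (Polynomial L) C).comp (Polynomial.C.comp (algebraMap K L))).toAlgebra
  let j : L →ₐ[K] C :=
    { (algebraMap (Polynomial L) C).comp Polynomial.C with commutes' := fun r => rfl }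
  obtain ⟨τ, E, h1, h2⟩ := EQAp.mainE σ p hσ (C := C) (algebraMap (Polynomial L) C)
    (IsFractionRing.injective _ _) j (fun a => rfl) σC
    (fun x => IsLocalization.map_eq _ x) (by
      intro f
      obtain ⟨b, hb⟩ := IsLocalization.exist_integer_multiples_of_finite
        (nonZeroDivisors (Polynomial L)) f
      refine ⟨b, nonZeroDivisors.ne_zero b.2, fun i => ?_⟩
      obtain ⟨r, hr⟩ := hb i
      exact ⟨r, by rw [hr, Algebra.smul_def]⟩)
  exact ⟨C, inferInstance, inferInstance, j, τ, E, h1, h2⟩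

end Pool.Agent.Helper28H.GE
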