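import Pool.Agent.Helper28H.GE.Stm

/-!
# GE: the piece HIG (Higman's linearization over a free algebra)
-/

set_option autoImplicit false
set_option linter.all false

universe u

namespace Pool.Agent.Helper28H.GE

open Matrix

namespace HIG

variable (K : Type u) [Field K] (ι : Type) [Fintype ι] [DecidableEq ι]

/-- the elements of degree at most one -/
def Ls : Submodule K (FreeAlgebra K ι) where
  carrier := {a | ∃ (c : K) (f : ι → K),
    a = algebraMap K (FreeAlgebra K ι) c + ∑ i, f i • FreeAlgebra.ι K i}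
  add_mem' := by
    rintro a b ⟨c, f, rfl⟩ ⟨c', f', rfl⟩
    refine ⟨c + c', f + f', ?_⟩
    simp only [map_add, Pi.add_apply, add_smul, Finset.sum_add_distrib]
    abel
  zero_mem' := ⟨0, 0, by simp⟩
  smul_mem' := by
    rintro k a ⟨c, f, rfl⟩
    refine ⟨k * c, fun i => k * f i, ?_⟩
    rw [smul_add, Finset.smul_sum, map_mul, Algebra.smul_def]
    simp only [mul_smul]

variable {K ι}

lemma mem_Ls {a : FreeAlgebra K ι} : a ∈ Ls K ι ↔ ∃ (c : K) (f : ι → K),
    a = algebraMap K (FreeAlgebra K ι) c + ∑ i, f i • FreeAlgebra.ι K i := Iff.rfl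

lemma algebraMap_mem (c : K) : algebraMap K (FreeAlgebra K ι) c ∈ Ls K ι := ⟨c, 0, by simp⟩

lemma one_mem : (1 : FreeAlgebra K ι) ∈ Ls K ι := by
  have := algebraMap_mem (K := K) (ι := ι) 1
  rwa [map_one] at this

lemma ι_mem (i : ι) : FreeAlgebra.ι K i ∈ Ls K ι := by
  refine ⟨0, Pi.single i 1, ?_⟩
  rw [map_zero, zero_add, Finset.sum_eq_single i]
  · simp
  · intro j _ hj
    rw [Pi.single_eq_of_ne hj, zero_smul]
  · intro h
    exact absurd (Finset.mem_univ i) h

lemma pow_mono {a b : ℕ} (h : a ≤ b) : Ls K ι ^ a ≤ Ls K ι ^ b := by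
  induction b, h using Nat.le_induction with
  | base => exact le_rfl
  | succ b _ ih =>
    refine ih.trans ?_
    intro x hx
    rw [pow_succ, ← mul_one x]
    exact Submodule.mul_mem_mul hx one_mem

lemma one_mem_pow (d : ℕ) : (1 : FreeAlgebra K ι) ∈ Ls K ι ^ d := by
  have h := pow_mono (K := K) (ι := ι) (Nat.zero_le d)
  apply h
  rw [pow_zero]
  exact Submodule.one_le.1 le_rfl

lemma ι_mem_pow (i : ι) (d : ℕ) : FreeAlgebra.ι K i ∈ Ls K ι ^ (d + 1) := by
  have h := pow_mono (K := K) (ι := ι) (show 1 ≤ d + 1 by omega)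
  apply h
  rw [pow_one]
  exact ι_mem i

lemma exists_deg (a : FreeAlgebra K ι) : ∃ d : ℕ, a ∈ Ls K ι ^ d := by
  induction a using FreeAlgebra.induction with
  | grade0 r => exact ⟨1, by rw [pow_one]; exact algebraMap_mem r⟩
  | grade1 i => exact ⟨1, by rw [pow_one]; exact ι_mem i⟩
  | mul a b ha hb =>
    obtain ⟨d, hd⟩ := ha
    obtain ⟨e, he⟩ := hb
    exact ⟨d + e, by rw [pow_add]; exact Submodule.mul_mem_mul hd he⟩
  | add a b ha hb =>
    obtain ⟨d, hd⟩ := ha
    obtain ⟨e, he⟩ := hb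
    exact ⟨d + e, Submodule.add_mem _ (pow_mono (Nat.le_add_right d e) hd)
      (pow_mono (Nat.le_add_left e d) he)⟩

lemma split {d : ℕ} {m : FreeAlgebra K ι} (hm : m ∈ Ls K ι ^ (d + 1)) :
    ∃ (m₀ : FreeAlgebra K ι) (g : ι → FreeAlgebra K ι), m₀ ∈ Ls K ι ^ d ∧
      (∀ i, g i ∈ Ls K ι ^ d) ∧ m = m₀ + ∑ i, FreeAlgebra.ι K i * g i := by
  rw [pow_succ'] at hm
  induction hm using Submodule.mul_induction_on' with
  | mem_mul_mem a ha b hb =>
    obtain ⟨c, f, rfl⟩ := ha
    refine ⟨c • b, fun i => f i • b, Submodule.smul_mem _ _ hb,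
      fun i => Submodule.smul_mem _ _ hb, ?_⟩
    rw [add_mul, Finset.sum_mul, ← Algebra.smul_def]
    congr 1
    exact Finset.sum_congr rfl fun i _ => by rw [smul_mul_assoc, mul_smul_comm]
  | add x _ y _ hx hy =>
    obtain ⟨m₀, g, h1, h2, rfl⟩ := hx
    obtain ⟨m₁, g', h3, h4, rfl⟩ := hy
    refine ⟨m₀ + m₁, fun i => g i + g' i, Submodule.add_mem _ h1 h3,
      fun i => Submodule.add_mem _ (h2 i) (h4 i), ?_⟩
    simp only [mul_add, Finset.sum_add_distrib]
    abel

/-- the linearization over arbitrary index types -/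
lemma lin : ∀ (d : ℕ) (α : Type) [Fintype α] [DecidableEq α]
    (M : Matrix α α (FreeAlgebra K ι)), (∀ i j, M i j ∈ Ls K ι ^ (d + 1)) →
    ∃ (κ : Type) (_ : Fintype κ) (_ : DecidableEq κ)
      (U V : Matrix (α ⊕ κ) (α ⊕ κ) (FreeAlgebra K ι)), IsUnit U ∧ IsUnit V ∧
      ∀ i j, (U * fromBlocks M 0 0 (1 : Matrix κ κ (FreeAlgebra K ι)) * V :
        Matrix (α ⊕ κ) (α ⊕ κ) (FreeAlgebra K ι)) i j ∈ Ls K ι := by
  intro d
  induction d with
  | zero =>
    intro α _ _ M hM
    refine ⟨Empty, inferInstance, inferInstance, 1, 1, isUnit_one, isUnit_one, ?_⟩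
    rintro (i | i) (j | j)
    · rw [one_mul, mul_one, fromBlocks_apply₁₁]
      have := hM i j
      rwa [zero_add, pow_one] at this
    · exact j.elim
    · exact i.elim
    · exact i.elim
  | succ d ih =>
    intro α _ _ M hM
    choose M₀ G h1 h2 h3 using fun i j => split (hM i j)
    let B : Matrix α (ι × α) (FreeAlgebra K ι) :=
      Matrix.of fun a p => if a = p.2 then FreeAlgebra.ι K p.1 else 0
    let C : Matrix (ι × α) α (FreeAlgebra K ι) := Matrix.of fun p c => G p.2 c p.1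
    have hBC : Matrix.of M₀ + B * C = M := by
      ext a c
      rw [Matrix.add_apply, Matrix.mul_apply, Matrix.of_apply, h3 a c, Fintype.sum_prod_type]
      congr 1
      refine Finset.sum_congr rfl fun i _ => ?_
      rw [Finset.sum_eq_single a]
      · simp [B, C]
      · intro b _ hb
        simp [B, hb.symm]
      · intro h
        exact absurd (Finset.mem_univ a) h
    let M' : Matrix (α ⊕ (ι × α)) (α ⊕ (ι × α)) (FreeAlgebra K ι) :=
      fromBlocks (Matrix.of M₀) B (-C) 1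
    have hM' : ∀ i j, M' i j ∈ Ls K ι ^ (d + 1) := by
      rintro (i | i) (j | j)
      · exact h1 i j
      · show B i j ∈ _
        simp only [B, Matrix.of_apply]
        split_ifs
        · exact ι_mem_pow _ _
        · exact Submodule.zero_mem _
      · show (-C) i j ∈ _
        rw [Matrix.neg_apply]
        exact Submodule.neg_mem _ (h2 _ _ _)
      · show (1 : Matrix (ι × α) (ι × α) (FreeAlgebra K ι)) i j ∈ _
        rw [Matrix.one_apply]
        split_ifs
        · exact one_mem_pow _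
        · exact Submodule.zero_mem _
    obtain ⟨κ, _, _, U', V', hU', hV', hL⟩ := ih (α ⊕ (ι × α)) M' hM'
    let E₁ : Matrix (α ⊕ (ι × α)) (α ⊕ (ι × α)) (FreeAlgebra K ι) := fromBlocks 1 B 0 1
    let E₂ : Matrix (α ⊕ (ι × α)) (α ⊕ (ι × α)) (FreeAlgebra K ι) := fromBlocks 1 0 (-C) 1
    have hE : E₁ * fromBlocks M 0 0 1 * E₂ = M' := by
      simp only [E₁, E₂, M', fromBlocks_multiply]
      rw [← hBC]
      simp
    have hu : ∀ E E' : Matrix (α ⊕ (ι × α)) (α ⊕ (ι × α)) (FreeAlgebra K ι), E * E' = 1 →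
        E' * E = 1 → IsUnit (fromBlocks E 0 0 (1 : Matrix κ κ (FreeAlgebra K ι))) := by
      intro E E' h h'
      refine ⟨⟨fromBlocks E 0 0 1, fromBlocks E' 0 0 1, ?_, ?_⟩, rfl⟩
      · rw [fromBlocks_multiply, h]
        simp
      · rw [fromBlocks_multiply, h']
        simp
    have hE₁ : IsUnit (fromBlocks E₁ 0 0 (1 : Matrix κ κ (FreeAlgebra K ι))) := by
      apply hu E₁ (fromBlocks 1 (-B) 0 1) <;>
      · simp only [E₁]
        rw [fromBlocks_multiply]
        simp
    have hE₂ : IsUnit (fromBlocks E₂ 0 0 (1 : Matrix κ κ (FreeAlgebra K ι))) := by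
      apply hu E₂ (fromBlocks 1 0 C 1) <;>
      · simp only [E₂]
        rw [fromBlocks_multiply]
        simp
    let e := Equiv.sumAssoc α (ι × α) κ
    let Φ := Matrix.reindexAlgEquiv K (FreeAlgebra K ι) e
    have hΦ : Φ (fromBlocks (fromBlocks M 0 0 1) 0 0 1) = fromBlocks M 0 0 1 := by
      ext i j
      rcases i with i | i | i <;> rcases j with j | j | j <;>
        simp [Φ, e, Matrix.reindexAlgEquiv_apply, Matrix.one_apply]
    refine ⟨(ι × α) ⊕ κ, inferInstance, inferInstance,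
      Φ (U' * fromBlocks E₁ 0 0 1), Φ (fromBlocks E₂ 0 0 1 * V'), (hU'.mul hE₁).map Φ,
      (hE₂.mul hV').map Φ, ?_⟩
    intro i j
    have h5 : Φ (U' * fromBlocks E₁ 0 0 1) * fromBlocks M 0 0 1 * Φ (fromBlocks E₂ 0 0 1 * V') =
        Φ (U' * fromBlocks M' 0 0 1 * V') := by
      rw [← hΦ, ← map_mul, ← map_mul]
      congr 1
      have h6 : fromBlocks E₁ 0 0 (1 : Matrix κ κ (FreeAlgebra K ι)) *
          fromBlocks (fromBlocks M 0 0 1) 0 0 1 * fromBlocks E₂ 0 0 1 = fromBlocks M' 0 0 1 := by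
        rw [fromBlocks_multiply, fromBlocks_multiply]
        simp only [Matrix.mul_zero, Matrix.zero_mul, add_zero, zero_add, Matrix.mul_one]
        rw [hE]
      rw [← h6]
      simp only [Matrix.mul_assoc]
    rw [h5]
    exact hL _ _

end HIG

/-- HIG -/
theorem t_HIG : S_HIG.{u} := by
  intro K _ ι _ _ n M
  classical
  -- a common degree
  obtain ⟨D, hD⟩ : ∃ D : ℕ, ∀ i j, M i j ∈ HIG.Ls K ι ^ (D + 1) := by
    choose d hd using fun i j => HIG.exists_deg (M i j)
    refine ⟨∑ i, ∑ j, d i j, fun i j => HIG.pow_mono ?_ (hd i j)⟩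
    have h1 : d i j ≤ ∑ j, d i j := Finset.single_le_sum (f := fun j => d i j)
      (fun _ _ => Nat.zero_le _) (Finset.mem_univ j)
    have h2 : ∑ j, d i j ≤ ∑ i, ∑ j, d i j := Finset.single_le_sum (f := fun i => ∑ j, d i j)
      (fun _ _ => Nat.zero_le _) (Finset.mem_univ i)
    omega
  obtain ⟨κ, _, _, U, V, hU, hV, hL⟩ := HIG.lin D (Fin n) M hD
  let e : Fin n ⊕ κ ≃ Fin n ⊕ Fin (Fintype.card κ) :=
    Equiv.sumCongr (Equiv.refl _) (Fintype.equivFin κ)
  let Φ := Matrix.reindexAlgEquiv K (FreeAlgebra K ι) e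
  have hΦ : Φ (fromBlocks M 0 0 1) = fromBlocks M 0 0 1 := by
    ext i j
    rcases i with i | i <;> rcases j with j | j <;>
      simp [Φ, e, Matrix.reindexAlgEquiv_apply, Matrix.one_apply]
  have hL' : ∀ i j, (Φ U * fromBlocks M 0 0 1 * Φ V : Matrix (Fin n ⊕ Fin (Fintype.card κ))
      (Fin n ⊕ Fin (Fintype.card κ)) (FreeAlgebra K ι)) i j ∈ HIG.Ls K ι := by
    intro i j
    rw [← hΦ, ← map_mul, ← map_mul]
    exact hL _ _
  choose P₀ P hP using hL'
  refine ⟨Fintype.card κ, Φ U, Φ V, Matrix.of P₀, fun l => Matrix.of fun i j => P i j l,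
    hU.map Φ, hV.map Φ, ?_⟩
  ext i j
  rw [hP i j, Matrix.add_apply, Matrix.sum_apply]
  rfl

end Pool.Agent.Helper28H.GE
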