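import Pool.Agent.Helper28H.GE.Stm

/-!
# GE: the piece PEN (linearization of the Jacobian matrix)
-/

set_option autoImplicit false
set_option linter.all false

universe u

namespace Pool.Agent.Helper28H.GE

open Matrix MulOpposite
open scoped TensorProduct

namespace PEN

section act

variable {K F N α β γ : Type*} [Field K] [Ring F] [Algebra K F] [AddCommGroup N] [Module K N]
  [Fintype α] [Fintype β] [Fintype γ] [DecidableEq α] [DecidableEq β]

/-- the action of matrices on tuples -/
noncomputable def act (g : F →ₐ[K] Module.End K N) (A : Matrix α β F) (v : β → N) : α → N :=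
  fun a => ∑ b, g (A a b) (v b)

lemma act_mul (g : F →ₐ[K] Module.End K N) (A : Matrix α β F) (B : Matrix β γ F) (v : γ → N) :
    act g (A * B) v = act g A (act g B v) := by
  funext a
  simp only [act, Matrix.mul_apply, map_sum, LinearMap.sum_apply, map_mul, Module.End.mul_apply]
  rw [Finset.sum_comm]

lemma act_one (g : F →ₐ[K] Module.End K N) (v : α → N) : act g (1 : Matrix α α F) v = v := by
  funext a
  simp only [act]
  rw [Finset.sum_eq_single a]
  · simp
  · intro b _ hb
    rw [Matrix.one_apply_ne hb.symm, map_zero, LinearMap.zero_apply]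
  · intro h
    exact absurd (Finset.mem_univ a) h

lemma act_zero (g : F →ₐ[K] Module.End K N) (A : Matrix α β F) : act g A 0 = 0 := by
  funext a
  simp [act]

lemma act_add (g : F →ₐ[K] Module.End K N) (A B : Matrix α β F) (v : β → N) :
    act g (A + B) v = act g A v + act g B v := by
  funext a
  simp [act, Finset.sum_add_distrib]

lemma act_sub (g : F →ₐ[K] Module.End K N) (A B : Matrix α β F) (v : β → N) :
    act g (A - B) v = act g A v - act g B v := by
  funext a
  simp [act, Finset.sum_sub_distrib]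

lemma act_sum {ι : Type*} (s : Finset ι) (g : F →ₐ[K] Module.End K N) (A : ι → Matrix α β F)
    (v : β → N) : act g (∑ i ∈ s, A i) v = ∑ i ∈ s, act g (A i) v := by
  classical
  induction s using Finset.induction_on with
  | empty =>
    funext a
    simp [act]
  | insert i s hi ih => rw [Finset.sum_insert hi, Finset.sum_insert hi, act_add, ih]

lemma act_unit (g : F →ₐ[K] Module.End K N) {A : Matrix α α F} (hA : IsUnit A) {v : α → N}
    (h : act g A v = 0) : v = 0 := by
  obtain ⟨u, rfl⟩ := hA
  have h1 := congrArg (act g (↑(u⁻¹) : Matrix α α F)) h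
  rw [← act_mul, Units.inv_mul, act_one, act_zero] at h1
  exact h1

end act

section pen

variable {K F : Type*} [Field K] [Ring F] [Algebra K F] {α : Type*} [Fintype α] [DecidableEq α]

/-- the corner of a unit -/
lemma corner {β : Type*} [Fintype β] [DecidableEq β] {A : Matrix α α F}
    (h : IsUnit (fromBlocks A 0 0 (1 : Matrix β β F))) : IsUnit A := by
  obtain ⟨u, hu⟩ := h
  have h1 : fromBlocks A 0 0 1 * (↑(u⁻¹) : Matrix (α ⊕ β) (α ⊕ β) F) = 1 := by
    rw [← hu, Units.mul_inv]
  have h2 : (↑(u⁻¹) : Matrix (α ⊕ β) (α ⊕ β) F) * fromBlocks A 0 0 1 = 1 := by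
    rw [← hu, Units.inv_mul]
  rw [← fromBlocks_toBlocks (↑(u⁻¹) : Matrix (α ⊕ β) (α ⊕ β) F), fromBlocks_multiply,
    ← fromBlocks_one] at h1 h2
  obtain ⟨h3, -⟩ := (fromBlocks_inj.1 h1)
  obtain ⟨h4, -⟩ := (fromBlocks_inj.1 h2)
  exact ⟨⟨A, toBlocks₁₁ (↑(u⁻¹) : Matrix (α ⊕ β) (α ⊕ β) F), by simpa using h3,
    by simpa using h4⟩, rfl⟩

end pen

variable {K : Type u} [Field K] {n : ℕ}

/-- the free algebra on the `x_j` and the `y_j` -/
abbrev FF (K : Type u) [Field K] (n : ℕ) : Type u := FreeAlgebra K (Fin n ⊕ Fin n)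

/-- the presentation of the enveloping algebra -/
noncomputable def pr (K : Type u) [Field K] (n : ℕ) : FF K n →ₐ[K] RR K n :=
  FreeAlgebra.lift K (Sum.elim (fun j => lft (FreeAlgebra.ι K j)) (fun j => rgt (FreeAlgebra.ι K j)))

@[simp] lemma pr_inl (j : Fin n) : pr K n (FreeAlgebra.ι K (Sum.inl j)) = lft (FreeAlgebra.ι K j) := by
  simp [pr]

@[simp] lemma pr_inr (j : Fin n) : pr K n (FreeAlgebra.ι K (Sum.inr j)) = rgt (FreeAlgebra.ι K j) := by
  simp [pr]

lemma lft_mem (a : FA K n) : lft a ∈ (pr K n).range := by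
  induction a using FreeAlgebra.induction with
  | grade0 r =>
    refine ⟨algebraMap K _ r, ?_⟩
    show pr K n (algebraMap K _ r) = _
    rw [AlgHom.commutes]
    rfl
  | grade1 i => exact ⟨_, pr_inl i⟩
  | mul a b ha hb =>
    have h : lft (a * b) = lft a * lft b := by simp [lft]
    rw [h]
    exact mul_mem ha hb
  | add a b ha hb =>
    have h : lft (a + b) = lft a + lft b := by simp [lft, TensorProduct.add_tmul]
    rw [h]
    exact add_mem ha hb

lemma rgt_mem (a : FA K n) : rgt a ∈ (pr K n).range := by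
  induction a using FreeAlgebra.induction with
  | grade0 r =>
    refine ⟨algebraMap K _ r, ?_⟩
    show pr K n (algebraMap K _ r) = _
    rw [AlgHom.commutes]
    have h : op (algebraMap K (FA K n) r) = r • (1 : (FA K n)ᵐᵒᵖ) := by
      rw [Algebra.algebraMap_eq_smul_one, op_smul, op_one]
    rw [rgt, h, TensorProduct.tmul_smul, Algebra.algebraMap_eq_smul_one]
    rfl
  | grade1 i => exact ⟨_, pr_inr i⟩
  | mul a b ha hb =>
    have h : rgt (a * b) = rgt b * rgt a := by simp [rgt]
    rw [h]
    exact mul_mem hb ha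
  | add a b ha hb =>
    have h : rgt (a + b) = rgt a + rgt b := by simp [rgt, TensorProduct.tmul_add]
    rw [h]
    exact add_mem ha hb

lemma pr_surj : Function.Surjective (pr K n) := by
  intro r
  rw [← AlgHom.mem_range]
  induction r using TensorProduct.induction_on with
  | zero => exact zero_mem _
  | tmul a b =>
    have h : a ⊗ₜ[K] b = lft a * rgt (unop b) := by simp [lft, rgt]
    rw [h]
    exact mul_mem (lft_mem a) (rgt_mem _)
  | add x y hx hy => exact add_mem hx hy

/-- the pencil over the free algebra -/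
noncomputable def PF {α : Type} [Fintype α] [DecidableEq α] (C C' : Fin n → Matrix α α K) :
    Matrix α α (FF K n) :=
  1 - ∑ j, (C j).map (fun c => c • FreeAlgebra.ι K (Sum.inl j)) -
    ∑ j, (C' j).map (fun c => c • FreeAlgebra.ι K (Sum.inr j))

end PEN

open PEN in
/-- PEN -/
theorem t_PEN (hHIG : S_HIG.{u}) (hACT : S_ACT.{u}) : S_PEN.{u} := by
  intro K _ n nab hnab φ hφ
  classical
  choose J hJ using fun i j => pr_surj (K := K) (n := n) (Jac nab φ i j)
  obtain ⟨k, U, V, P₀, P, hU, hV, hP⟩ := hHIG K (Fin n ⊕ Fin n) n (Matrix.of J)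
  set Pm : Matrix (Fin n ⊕ Fin k) (Fin n ⊕ Fin k) (FF K n) :=
    P₀.map (algebraMap K (FF K n)) + ∑ i, (P i).map fun c => c • FreeAlgebra.ι K i with hPm
  -- injectivity
  have hinj : ∀ (S : Type u) [Field S] [Algebra K S] (p q : Type) [Fintype p] [DecidableEq p]
      [Fintype q] [DecidableEq q] (X : Fin n → Matrix p p S) (Y : Fin n → Matrix q q S)
      (ρ : RR K n →ₐ[K] Module.End K (Matrix p q S)),
      (∀ (H : Fin n → Matrix p q S) (a : FA K n), ∑ j, ρ (nab j a) (H j) = Dd X Y H a) →
      ∀ w : Fin n ⊕ Fin k → Matrix p q S, act (ρ.comp (pr K n)) Pm w = 0 → w = 0 := by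
    intro S _ _ p q _ _ _ _ X Y ρ hρ w hw
    rw [← hP, act_mul, act_mul] at hw
    have h1 := act_unit (ρ.comp (pr K n)) hU hw
    apply act_unit (ρ.comp (pr K n)) hV
    set v := act (ρ.comp (pr K n)) V w with hv
    have h2 : ∀ i, ∑ j, ρ (nab j (φ (FreeAlgebra.ι K i))) (v (Sum.inl j)) = 0 := by
      intro i
      have h3 := congrFun h1 (Sum.inl i)
      simp only [act, Fintype.sum_sum_type, fromBlocks_apply₁₁, fromBlocks_apply₁₂,
        Matrix.zero_apply, map_zero, LinearMap.zero_apply, Finset.sum_const_zero, add_zero,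
        Pi.zero_apply, Matrix.of_apply, AlgHom.comp_apply, hJ] at h3
      exact h3
    have h4 : (fun j => v (Sum.inl j)) = 0 := by
      apply hφ S p q X Y
      intro i
      rw [← hρ]
      exact h2 i
    funext b
    rcases b with b | b
    · exact congrFun h4 b
    · have h3 := congrFun h1 (Sum.inr b)
      simp only [act, Fintype.sum_sum_type, fromBlocks_apply₂₁, fromBlocks_apply₂₂,
        Matrix.zero_apply, map_zero, LinearMap.zero_apply, Finset.sum_const_zero, zero_add,
        Pi.zero_apply] at h3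
      rw [Finset.sum_eq_single b] at h3
      · simpa using h3
      · intro c _ hc
        rw [Matrix.one_apply_ne hc.symm, map_zero, LinearMap.zero_apply]
      · intro h
        exact absurd (Finset.mem_univ b) h
  -- the constant part is invertible
  have hP₀ : IsUnit P₀ := by
    rw [← Matrix.mulVec_injective_iff_isUnit]
    rw [← Matrix.coe_mulVecLin]
    rw [← LinearMap.ker_eq_bot, LinearMap.ker_eq_bot']
    intro x hx
    rw [Matrix.mulVecLin_apply] at hx
    obtain ⟨ρ, h1, h2, h3⟩ := hACT K n K Unit Unit (0 : Fin n → Matrix Unit Unit K)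
      (0 : Fin n → Matrix Unit Unit K)
    have h4 := hinj K Unit Unit 0 0 ρ (h3 nab hnab) (fun b => Matrix.of fun _ _ => x b) (by
      rw [hPm, act_add, act_sum]
      have h5 : ∀ i, act (ρ.comp (pr K n)) ((P i).map fun c => c • FreeAlgebra.ι K i)
          (fun b => Matrix.of fun _ _ => x b) = 0 := by
        intro i
        funext a
        simp only [act, Matrix.map_apply, map_smul, AlgHom.comp_apply, LinearMap.smul_apply,
          Pi.zero_apply]
        refine Finset.sum_eq_zero fun b _ => ?_
        rcases i with i | i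
        · rw [pr_inl, h1]
          simp
        · rw [pr_inr, h2]
          simp
      rw [Finset.sum_eq_zero fun i _ => h5 i, add_zero]
      funext a
      simp only [act, Matrix.map_apply, AlgHom.commutes, Module.algebraMap_end_apply,
        Pi.zero_apply]
      ext i j
      rw [Matrix.sum_apply]
      have h6 := congrFun hx a
      simp only [Matrix.mulVec, dotProduct, Pi.zero_apply] at h6
      simpa using h6)
    funext b
    have h5 := congrFun (congrFun (congrFun h4 b) ()) ()
    simpa using h5
  obtain ⟨u₀, hu₀⟩ := hP₀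
  set C : Fin n → Matrix (Fin n ⊕ Fin k) (Fin n ⊕ Fin k) K :=
    fun j => -((↑(u₀⁻¹) : Matrix (Fin n ⊕ Fin k) (Fin n ⊕ Fin k) K) * P (Sum.inl j)) with hC
  set C' : Fin n → Matrix (Fin n ⊕ Fin k) (Fin n ⊕ Fin k) K :=
    fun j => -((↑(u₀⁻¹) : Matrix (Fin n ⊕ Fin k) (Fin n ⊕ Fin k) K) * P (Sum.inr j)) with hC'
  have hPC : ∀ j, P₀ * C j = -P (Sum.inl j) := by
    intro j
    rw [hC, ← hu₀, Matrix.mul_neg, ← Matrix.mul_assoc, Units.mul_inv, Matrix.one_mul]
  have hPC' : ∀ j, P₀ * C' j = -P (Sum.inr j) := by
    intro j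
    rw [hC', ← hu₀, Matrix.mul_neg, ← Matrix.mul_assoc, Units.mul_inv, Matrix.one_mul]
  have hmm : ∀ (A B : Matrix (Fin n ⊕ Fin k) (Fin n ⊕ Fin k) K) (z : FF K n),
      A.map (algebraMap K (FF K n)) * B.map (fun c => c • z) = (A * B).map (fun c => c • z) := by
    intro A B z
    ext a b
    simp only [Matrix.mul_apply, Matrix.map_apply, Finset.sum_smul]
    refine Finset.sum_congr rfl fun c _ => ?_
    rw [← Algebra.smul_def, smul_smul]
  have hfac : P₀.map (algebraMap K (FF K n)) * PF C C' = Pm := by
    rw [PF, hPm, Matrix.mul_sub, Matrix.mul_sub, Matrix.mul_one, Matrix.mul_sum, Matrix.mul_sum,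
      Fintype.sum_sum_type]
    simp only [hmm, hPC, hPC']
    have hneg : ∀ (B : Matrix (Fin n ⊕ Fin k) (Fin n ⊕ Fin k) K) (z : FF K n),
        (-B).map (fun c => c • z) = -(B.map (fun c => c • z)) := by
      intro B z
      ext a b
      simp
    simp only [hneg, Finset.sum_neg_distrib]
    abel
  let e : Fin n ⊕ Fin k ≃ Fin (n + k) := finSumFinEquiv
  refine ⟨n + k, fun j => (C j).submatrix e.symm e.symm, fun j => (C' j).submatrix e.symm e.symm,
    ?_, ?_⟩
  · -- the pencil is injective
    intro S _ _ p q _ _ _ _ X Y v hv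
    obtain ⟨ρ, h1, h2, h3⟩ := hACT K n S p q X Y
    have h4 := hinj S p q X Y ρ (h3 nab hnab) (fun b => v (e b)) (by
      rw [← hfac, act_mul]
      have h5 : act (ρ.comp (pr K n)) (PF C C') (fun b => v (e b)) = 0 := by
        rw [PF, act_sub, act_sub, act_one, act_sum, act_sum]
        funext a
        rw [Pi.sub_apply, Pi.sub_apply, Finset.sum_apply, Finset.sum_apply, Pi.zero_apply,
          sub_sub, sub_eq_zero, hv (e a), ← Finset.sum_add_distrib]
        refine Finset.sum_congr rfl fun j _ => ?_
        simp only [act, Matrix.map_apply, map_smul, AlgHom.comp_apply, LinearMap.smul_apply,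
          pr_inl, pr_inr, h1, h2, ev_ι]
        rw [← Finset.sum_add_distrib]
        rw [← Equiv.sum_comp e]
        refine Finset.sum_congr rfl fun b _ => ?_
        simp
      rw [h5, act_zero])
    funext a
    have h5 := congrFun h4 (e.symm a)
    simpa using h5
  · intro hu
    -- the pencil over the enveloping algebra
    have h1 : (Matrix.reindexAlgEquiv K (RR K n) e) ((PF C C').map (pr K n)) =
        Pen (fun j => (C j).submatrix e.symm e.symm) (fun j => (C' j).submatrix e.symm e.symm) := by
      ext a b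
      simp only [Matrix.reindexAlgEquiv_apply, Matrix.reindex_apply, Matrix.submatrix_apply,
        Matrix.map_apply, PF, Pen, Matrix.sub_apply, Matrix.sum_apply, map_sub, map_sum, map_smul,
        pr_inl, pr_inr]
      congr 2
      rw [Matrix.one_apply, Matrix.one_apply]
      simp only [EmbeddingLike.apply_eq_iff_eq]
      split_ifs <;> simp
    rw [← h1] at hu
    have h2 : IsUnit ((PF C C').map (pr K n)) := by
      have := hu.map (Matrix.reindexAlgEquiv K (RR K n) e).symm
      simpa using this
    have hmapu : ∀ A : Matrix (Fin n ⊕ Fin k) (Fin n ⊕ Fin k) (FF K n), IsUnit A →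
        IsUnit (A.map (pr K n)) := fun A hA => hA.map (pr K n).mapMatrix
    have h3 : IsUnit (Pm.map (pr K n)) := by
      rw [← hfac]
      have h4 : (P₀.map (algebraMap K (FF K n)) * PF C C').map (pr K n) =
          (P₀.map (algebraMap K (FF K n))).map (pr K n) * (PF C C').map (pr K n) :=
        map_mul ((pr K n).mapMatrix) _ _
      rw [h4]
      refine IsUnit.mul (hmapu _ ?_) h2
      have h5 : IsUnit P₀ := ⟨u₀, hu₀⟩
      exact h5.map ((Algebra.ofId K (FF K n)).mapMatrix (m := Fin n ⊕ Fin k))
    rw [← hP] at h3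
    have h4 : (U * fromBlocks (Matrix.of J) 0 0 1 * V).map (pr K n) = U.map (pr K n) *
        (fromBlocks (Matrix.of J) 0 0 1).map (pr K n) * V.map (pr K n) := by
      have h5 := map_mul ((pr K n).mapMatrix (m := Fin n ⊕ Fin k))
        (U * fromBlocks (Matrix.of J) 0 0 1) V
      have h6 := map_mul ((pr K n).mapMatrix (m := Fin n ⊕ Fin k)) U
        (fromBlocks (Matrix.of J) 0 0 1)
      rw [h6] at h5
      exact h5
    rw [h4] at h3
    have h5 : (fromBlocks (Matrix.of J) 0 0 (1 : Matrix (Fin k) (Fin k) (FF K n))).map (pr K n) =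
        fromBlocks (Jac nab φ) 0 0 1 := by
      rw [fromBlocks_map]
      have h6 : (Matrix.of J).map (pr K n) = Jac nab φ := by
        ext i j
        exact hJ i j
      rw [h6]
      congr 1 <;> ext i j <;> simp [Matrix.one_apply, apply_ite (pr K n)]
    rw [h5] at h3
    obtain ⟨a, ha⟩ := hmapu U hU
    obtain ⟨b, hb⟩ := hmapu V hV
    rw [← ha, ← hb, Units.isUnit_mul_units, Units.isUnit_units_mul] at h3
    exact corner h3

end Pool.Agent.Helper28H.GE
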