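import Pool.Agent.Helper28H.GE.Stm

/-! Piece SPAN of project GE. -/

set_option autoImplicit false
set_option linter.all false

universe u

namespace Pool.Agent.Helper28H.GE

open Matrix

namespace SpanP

variable {K : Type u} [Field K] {n : ℕ} {W : Submodule K (FA K n)}
  (D : Fin n → (W →ₗ[K] W)) {L : Type u} [Field L] [Algebra K L]

/-- the operator `E ↦ E - ∑ Z_j E(D_j a)` -/
noncomputable def TT {p : Type} [Fintype p] [DecidableEq p] (Z : Fin n → Matrix p p L) :
    (W →ₗ[K] Matrix p p L) →ₗ[L] (W →ₗ[K] Matrix p p L) where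
  toFun E := E - ∑ j, (LinearMap.mulLeft K (Z j)).comp (E.comp (D j))
  map_add' E F := by
    ext a
    simp [LinearMap.sum_apply, mul_add, Finset.sum_add_distrib]
    ring
  map_smul' c E := by
    ext a x y
    simp [LinearMap.sum_apply, Finset.smul_sum, smul_sub]

theorem TT_apply {p : Type} [Fintype p] [DecidableEq p] (Z : Fin n → Matrix p p L)
    (E : W →ₗ[K] Matrix p p L) (a : W) : TT D Z E a = E a - ∑ j, Z j * E (D j a) := by
  simp [TT, LinearMap.sum_apply]

/-- the property `P` of a linear form -/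
def PP (L : Type u) [Field L] [Algebra K L] (η : Module.Dual K W) : Prop :=
  ∀ (p : Type) [Fintype p] [DecidableEq p] (Z : Fin n → Matrix p p L),
    ∃ E : W →ₗ[K] Matrix p p L, ∀ a, E a - ∑ j, Z j * E (D j a) = η a • (1 : Matrix p p L)

theorem PP_zero : PP D L 0 := fun p _ _ Z => ⟨0, fun a => by simp⟩

theorem PP_add {η θ : Module.Dual K W} (h1 : PP D L η) (h2 : PP D L θ) : PP D L (η + θ) := by
  intro p _ _ Z
  obtain ⟨E, hE⟩ := h1 p Z
  obtain ⟨F, hF⟩ := h2 p Z
  refine ⟨E + F, fun a => ?_⟩
  have e : (η + θ) a = η a + θ a := rfl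
  rw [e, add_smul, ← hE a, ← hF a]
  simp only [LinearMap.add_apply, mul_add, Finset.sum_add_distrib]
  abel

theorem PP_smul (c : K) {η : Module.Dual K W} (h1 : PP D L η) : PP D L (c • η) := by
  intro p _ _ Z
  obtain ⟨E, hE⟩ := h1 p Z
  refine ⟨c • E, fun a => ?_⟩
  have e : (c • η) a = c * η a := rfl
  rw [e, mul_smul, ← hE a, smul_sub, Finset.smul_sum]
  simp only [LinearMap.smul_apply, Matrix.mul_smul]

/-- the submodule of the good forms -/
def NN (L : Type u) [Field L] [Algebra K L] : Submodule K (Module.Dual K W) where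
  carrier := {η | PP D L η}
  add_mem' h1 h2 := PP_add D h1 h2
  zero_mem' := PP_zero D
  smul_mem' c _ h := PP_smul D c h

/-- the constant term as a form -/
noncomputable def eps (W : Submodule K (FA K n)) : Module.Dual K W :=
  (aug K n).toLinearMap.comp W.subtype

theorem PP_eps {φ : FA K n →ₐ[K] FA K n}
    (hD : ∀ a : W, (a : FA K n) = algebraMap K (FA K n) (aug K n (a : FA K n)) +
      ∑ l, φ (FreeAlgebra.ι K l) * (D l a : FA K n))
    (hS : ∀ (p : Type) [Fintype p] [DecidableEq p] (Z : Fin n → Matrix p p L),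
      ∃ X : Fin n → Matrix p p L, ∀ i, ev X (φ (FreeAlgebra.ι K i)) = Z i) :
    PP D L (eps W) := by
  intro p _ _ Z
  obtain ⟨X, hX⟩ := hS p Z
  refine ⟨(ev X).toLinearMap.comp W.subtype, fun a => ?_⟩
  have h := congrArg (ev X) (hD a)
  rw [map_add, AlgHom.commutes, map_sum, Algebra.algebraMap_eq_smul_one] at h
  simp only [map_mul, hX] at h
  simp only [LinearMap.comp_apply, Submodule.subtype_apply, AlgHom.toLinearMap_apply]
  rw [h]
  simp [eps]

theorem PP_comp (i : Fin n) {η : Module.Dual K W} (h1 : PP D L η) : PP D L (η.comp (D i)) := by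
  classical
  intro p _ _ Z
  obtain ⟨E, hE⟩ := h1 (p ⊕ p) (fun l => fromBlocks (Z l) (if l = i then 1 else 0) 0 0)
  have h22 : ∀ a, (E a).toBlocks₂₂ = η a • (1 : Matrix p p L) := by
    intro a
    have h := congrArg Matrix.toBlocks₂₂ (hE a)
    have e1 : (η a • (1 : Matrix (p ⊕ p) (p ⊕ p) L)).toBlocks₂₂ = η a • (1 : Matrix p p L) := by
      rw [← fromBlocks_one, fromBlocks_smul, toBlocks_fromBlocks₂₂]
    rw [e1] at h
    rw [← h]
    ext x y
    have e2 : ∀ j, (fromBlocks (Z j) (if j = i then (1 : Matrix p p L) else 0) 0 0 * E (D j a))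
        (Sum.inr x) (Sum.inr y) = 0 := by
      intro j
      rw [Matrix.mul_apply]
      apply Finset.sum_eq_zero
      rintro (z | z) _ <;> simp
    simp only [toBlocks₂₂, of_apply, Matrix.sub_apply, Matrix.sum_apply, e2, Finset.sum_const_zero,
      sub_zero]
  let B : Matrix (p ⊕ p) (p ⊕ p) L →ₗ[K] Matrix p p L :=
    { toFun := fun M => M.toBlocks₁₂
      map_add' := fun M N => rfl
      map_smul' := fun c M => rfl }
  have hB : ∀ M, B M = M.toBlocks₁₂ := fun M => rfl
  refine ⟨B.comp E, fun a => ?_⟩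
  have h := congrArg B (hE a)
  have e1 : B (η a • (1 : Matrix (p ⊕ p) (p ⊕ p) L)) = 0 := by
    rw [hB, ← fromBlocks_one, fromBlocks_smul, toBlocks_fromBlocks₁₂, smul_zero]
  rw [e1, map_sub, map_sum] at h
  have e2 : ∀ j, B (fromBlocks (Z j) (if j = i then (1 : Matrix p p L) else 0) 0 0 * E (D j a)) =
      Z j * B (E (D j a)) + (if j = i then (1 : Matrix p p L) else 0) * (E (D j a)).toBlocks₂₂ := by
    intro j
    rw [← fromBlocks_toBlocks (E (D j a)), fromBlocks_multiply, hB, hB]
    simp
  simp only [e2, Finset.sum_add_distrib, ite_mul, one_mul, zero_mul, Finset.sum_ite_eq',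
    Finset.mem_univ, if_true] at h
  simp only [LinearMap.comp_apply]
  rw [h22] at h
  rw [← sub_eq_zero, ← h]
  abel

theorem NN_top (hF : S_FOX.{u}) [Module.Finite K W] {φ : FA K n →ₐ[K] FA K n}
    (h0 : ∀ i, aug K n (φ (FreeAlgebra.ι K i)) = 0)
    (hD : ∀ a : W, (a : FA K n) = algebraMap K (FA K n) (aug K n (a : FA K n)) +
      ∑ l, φ (FreeAlgebra.ι K l) * (D l a : FA K n))
    (hS : ∀ (p : Type) [Fintype p] [DecidableEq p] (Z : Fin n → Matrix p p L),
      ∃ X : Fin n → Matrix p p L, ∀ i, ev X (φ (FreeAlgebra.ι K i)) = Z i) :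
    NN D L = ⊤ := by
  obtain ⟨_, _, _, _, _, _, _, _, hI, _⟩ := hF K n
  have key : ∀ k : ℕ, ∀ a : W, (∀ η ∈ NN D L, η a = 0) → (a : FA K n) ∈ augI K n ^ (k + 1) := by
    intro k
    induction k with
    | zero =>
      intro a ha
      rw [zero_add, pow_one]
      exact LinearMap.mem_ker.2 (ha _ (PP_eps D hD hS))
    | succ k ih =>
      intro a ha
      have h1 : aug K n (a : FA K n) = 0 := ha _ (PP_eps D hD hS)
      rw [hD a, h1, map_zero, zero_add, pow_succ']
      refine Submodule.sum_mem _ fun l _ => Submodule.mul_mem_mul ?_ ?_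
      · exact LinearMap.mem_ker.2 (h0 l)
      · exact ih (D l a) fun η hη => ha (η.comp (D l)) (PP_comp D l hη)
  have hco : (NN D L).dualCoannihilator = ⊥ := by
    rw [eq_bot_iff]
    intro a ha
    rw [Submodule.mem_dualCoannihilator] at ha
    rw [Submodule.mem_bot]
    exact Subtype.ext (hI _ fun k => key k a ha)
  have h := Subspace.dualCoannihilator_dualAnnihilator_eq (W := NN D L)
  rw [← h, hco, Submodule.dualAnnihilator_bot]

end SpanP

open SpanP

theorem t_SPAN (hF : S_FOX.{u}) : S_SPAN.{u} := by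
  intro K _ n φ h0 W _ D hD L _ _ hS p _ _ Z E hE
  have hN := NN_top (L := L) D hF h0 hD hS
  have hsurj : Function.Surjective (TT D Z) := by
    intro F
    let b := Module.finBasis K W
    have h1 : ∀ i, ∃ G : W →ₗ[K] Matrix p p L,
        ∀ a, TT D Z G a = b.coord i a • F (b i) := by
      intro i
      have h2 : PP D L (b.coord i) := by
        have : b.coord i ∈ NN D L := by rw [hN]; trivial
        exact this
      obtain ⟨G, hG⟩ := h2 p Z
      refine ⟨(LinearMap.mulRight K (F (b i))).comp G, fun a => ?_⟩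
      rw [TT_apply]
      simp only [LinearMap.comp_apply, LinearMap.mulRight_apply]
      have h3 := congrArg (fun M => M * F (b i)) (hG a)
      simp only [sub_mul, Finset.sum_mul, Matrix.smul_mul, Matrix.one_mul] at h3
      rw [← h3]
      simp only [Matrix.mul_assoc]
    choose G hG using h1
    refine ⟨∑ i, G i, ?_⟩
    ext1 a
    rw [map_sum, LinearMap.sum_apply]
    simp only [hG]
    conv_rhs => rw [← b.sum_repr a, map_sum]
    simp only [map_smul, Module.Basis.coord_apply]
  have hinj : Function.Injective (TT D Z) := LinearMap.injective_iff_surjective.2 hsurj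
  apply hinj
  rw [map_zero]
  ext1 a
  rw [TT_apply, LinearMap.zero_apply, sub_eq_zero]
  exact hE a

end Pool.Agent.Helper28H.GE
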