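import Pool.Agent.Helper28H.GE.Bas

/-!
# Project GE (MP_54c2ef_al, hard, weight 10, FULL ANSWER): statements of the pieces

Theorem. Let `K` be a field and `A = K⟨x_1, …, x_n⟩` the free associative algebra. Every good endomorphism
of `A` is an automorphism.

Plan. `φ` good. (1) For tuples `X`, `Y` of matrices over a commutative ring the derivative
`H ↦ (Dd X Y H (φ x_i))_i` has a determinant; for generic matrices it is a polynomial `δ`. For an
automorphism it is a nonzero constant; for `ψ ≡ id mod I^m` it is `1 + (terms of degree ≥ m-1)`. So `δ` is a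
nonzero constant and the derivative of `φ` is injective at all pairs of tuples of matrices over all fields
(`INV φ`). From here only `INV φ` is used (free Jacobian theorem in all characteristics).
(2) The Jacobian matrix `J ∈ M_n(A ⊗ Aᵒᵖ)` of `φ` is invertible: Higman linearization, nilpotent pencils,
cyclic division algebras. (3) So there is a finite dimensional space `W ∋ x_i` with operators `D_l` such
that `a = ε(a) + ∑ φ(x_l) D_l(a)`. (4) By `INV` and the theorem of Ax and Grothendieck (Mathlib) `φ` is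
surjective on the tuples of matrices over an algebraically closed field. (5) Then the `D_l` are nilpotent
and `x_i ∈ φ(A)`. (6) `φ` is injective.

Every piece `XXX` is a `def S_XXX : Prop`; to be proved: `theorem t_XXX : S_XXX` (with hypotheses
`(h : S_YYY)` where the docstring says so), in a file `Pool/Agent/HelperNN…/….lean` of yours, or
`Pool/Agent/Helper28H/GE/XXX.lean`. The basic lemmas on `ev` and `Dd` are proved in `GE/Bas.lean`.
-/

set_option autoImplicit false
set_option linter.all false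

universe u

namespace Pool.Agent.Helper28H.GE

open Matrix MulOpposite
open scoped TensorProduct

/-! ## Part 1: determinants -/

section

variable {K : Type u} [Field K] {n : ℕ} {S : Type u} [CommRing S] [Algebra K S]
  {p q : Type} [Fintype p] [DecidableEq p] [Fintype q] [DecidableEq q]

/-- The matrix of the derivative of `φ` at `(X, Y)`. -/
noncomputable def DM (φ : FA K n →ₐ[K] FA K n) (X : Fin n → Matrix p p S)
    (Y : Fin n → Matrix q q S) : Matrix (Fin n × p × q) (Fin n × p × q) S :=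
  Matrix.of fun r c => Dd X Y (Pi.single c.1 (Matrix.single c.2.1 c.2.2 (1 : S)))
    (φ (FreeAlgebra.ι K r.1)) r.2.1 r.2.2

end

/-- The variables of a generic pair. -/
abbrev GV (n : ℕ) (p q : Type) : Type := (Fin n × p × p) ⊕ (Fin n × q × q)

/-- The generic tuple `X`. -/
noncomputable def GX (K : Type u) [Field K] (n : ℕ) (p q : Type) :
    Fin n → Matrix p p (MvPolynomial (GV n p q) K) :=
  fun i => Matrix.of fun a b => MvPolynomial.X (Sum.inl (i, a, b))

/-- The generic tuple `Y`. -/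
noncomputable def GY (K : Type u) [Field K] (n : ℕ) (p q : Type) :
    Fin n → Matrix q q (MvPolynomial (GV n p q) K) :=
  fun i => Matrix.of fun a b => MvPolynomial.X (Sum.inr (i, a, b))

/-- Piece DMC (80 lines). (i) `Dd X Y H (φ x_i)` is the matrix `DM` times `H` (linearity in `H`:
`H = ∑ c, H c • Pi.single c.1 (single …)`, `Dd_lin_add`, `Dd_lin_smul`; sums by `Finset.sum_induction` or an
additive hom). (ii) chain rule (from `Dd_comp` and (i)). (iii) the identity. (iv) base change (`Dd_map`,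
`ev_map`; `Pi.single` and `single` are mapped to themselves). -/
def S_DMC : Prop := ∀ (K : Type u) [Field K] (n : ℕ) (S : Type u) [CommRing S] [Algebra K S]
  (p q : Type) [Fintype p] [DecidableEq p] [Fintype q] [DecidableEq q]
  (X : Fin n → Matrix p p S) (Y : Fin n → Matrix q q S) (φ ψ : FA K n →ₐ[K] FA K n),
  (∀ (H : Fin n → Matrix p q S) (i : Fin n) (a : p) (b : q), Dd X Y H (φ (FreeAlgebra.ι K i)) a b =
    ∑ c : Fin n × p × q, DM φ X Y (i, a, b) c * H c.1 c.2.1 c.2.2) ∧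
  DM (ψ.comp φ) X Y = DM φ (fun i => ev X (ψ (FreeAlgebra.ι K i)))
    (fun i => ev Y (ψ (FreeAlgebra.ι K i))) * DM ψ X Y ∧
  DM (AlgHom.id K (FA K n)) X Y = 1 ∧
  ∀ (S' : Type u) [CommRing S'] [Algebra K S'] (σ : S →ₐ[K] S'),
    DM φ (fun i => (X i).map σ) (fun i => (Y i).map σ) = (DM φ X Y).map σ

/-- Piece DMU (40 lines, uses `S_DMC`). For an automorphism the generic determinant is a nonzero constant:
`α⁻¹ ∘ α = id` and the chain rule (ii) give `DM α (…) * DM α⁻¹ X Y = 1` and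
`DM α⁻¹ (…) * DM α X Y = 1`, so `det (DM α X Y)` is a unit of the polynomial ring over a field, hence a
nonzero constant (`MvPolynomial.isUnit_iff_eq_C_of_isReduced` or similar). -/
def S_DMU : Prop := ∀ (K : Type u) [Field K] (n : ℕ) (p q : Type) [Fintype p] [DecidableEq p]
  [Fintype q] [DecidableEq q] (α : FA K n ≃ₐ[K] FA K n),
  ∃ c : K, c ≠ 0 ∧ (DM (α : FA K n →ₐ[K] FA K n) (GX K n p q) (GY K n p q)).det = MvPolynomial.C c

/-- Piece DMO (100 lines). If `ψ(x_i) - x_i ∈ I^(m+1)` then `det (DM ψ X Y) ∈ 1 + 𝔪^m` for generic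
`X`, `Y`, `𝔪 = idealOfVars`. Proof. All entries of `ev X a` and `ev Y a` are in `𝔪^k` if `a ∈ I^k`
(`Submodule.pow_induction_on_left'` or `Submodule.mul_induction_on`; for `a ∈ I`, i.e. `aug a = 0`: the
entries of `ev X a` have constant term zero: the reduction `X ↦ 0` of `ev X a` is `aug a`, use `ev_map` with
`MvPolynomial.aeval 0`, or: `a - algebraMap (aug a)` has entries in `𝔪` for all `a` by induction). By
`Dd_mul` the entries of `Dd X Y H a` are in `𝔪^m` if `a ∈ I^(m+1)` and `H` is any tuple with entries in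
the ring. So `DM ψ - 1 = DM ψ - DM id` has entries in `𝔪^m`, and the determinant is `≡ 1` (map to the
quotient ring `MvPolynomial ⧸ 𝔪^m`, `RingHom.map_det`). -/
def S_DMO : Prop := ∀ (K : Type u) [Field K] (n : ℕ) (p q : Type) [Fintype p] [DecidableEq p]
  [Fintype q] [DecidableEq q] (ψ : FA K n →ₐ[K] FA K n) (m : ℕ),
  (∀ i, ψ (FreeAlgebra.ι K i) - FreeAlgebra.ι K i ∈ augI K n ^ (m + 1)) →
  (DM ψ (GX K n p q) (GY K n p q)).det - 1 ∈ MvPolynomial.idealOfVars (GV n p q) K ^ m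

/-- Piece GOOD (80 lines, uses `S_DMC`, `S_DMU`, `S_DMO`). `δ = det (DM φ X Y)` for generic `X`, `Y`; let
`m > totalDegree δ`; `φ a = ψ (α a)` with `ψ ≡ id mod I^(m+1)`. By the chain rule
`δ = det (DM α (ψX) (ψY)) * det (DM ψ X Y)`; the first factor is the image of the constant
`det (DM α X Y) = C c` under the substitution (base change along `MvPolynomial.aeval` of the entries), so it
is `C c`. Hence `δ - C c ∈ 𝔪^m` and, by the degree, `δ = C c` (`MvPolynomial.mem_pow_idealOfVars_iff`).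
For `X`, `Y` over a field `C` the determinant of `DM φ X Y` is the image of `δ`, so it is `c ≠ 0`, and
`DM φ X Y` is invertible: `Dd X Y H (φ x_i) = 0` for all `i` implies `H = 0` by (i). -/
def S_GOOD : Prop := ∀ (K : Type u) [Field K] (n : ℕ) (φ : FA K n →ₐ[K] FA K n), Good φ → INV φ

/-- Good for the other order of composition. -/
def GoodR {K : Type u} [Field K] {n : ℕ} (φ : FA K n →ₐ[K] FA K n) : Prop :=
  ∀ m : ℕ, 1 ≤ m → ∃ (ψ : FA K n →ₐ[K] FA K n) (α : FA K n ≃ₐ[K] FA K n),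
    (∀ a, φ a = α (ψ a)) ∧ ∀ i, ψ (FreeAlgebra.ι K i) - FreeAlgebra.ι K i ∈ augI K n ^ m

/-- Piece GOODR (100 lines, uses `S_DMC`, `S_DMU`, `S_DMO`; optional). As GOOD with `φ a = α (ψ a)`:
`δ = det (DM ψ (αX) (αY)) * det (DM α X Y) = σ(1 + t) * C c`, `t ∈ 𝔪^m`, where `σ` is the substitution of
the entries of `αX`, `αY`; `σ` is an automorphism of the polynomial ring (inverse: the one of `α⁻¹`), so
`σ(𝔪)` is the kernel of the algebra map `ev_0 ∘ σ⁻¹` to `K`, an evaluation at a point `c₀`; the translation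
`τ : X_v ↦ X_v + c₀ v` maps it into `𝔪` and does not raise the total degree. So `τ(δ) - C c ∈ 𝔪^m` has total
degree `< m`, hence `δ = C c`. -/
def S_GOODR : Prop := ∀ (K : Type u) [Field K] (n : ℕ) (φ : FA K n →ₐ[K] FA K n), GoodR φ → INV φ

/-! ## Part 2: surjectivity on matrices -/

/-- Piece SUR (80 lines). `X ↦ (ev X (φ x_i))_i` is a polynomial self map of the affine space of tuples of
matrices (`ι = Fin n × p × p`; the polynomials are the entries of `ev` of the generic tuple, evaluation by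
`ev_map`). It is injective: `ev X (φ x_i) = ev Y (φ x_i)` for all `i` means `Dd X Y (X - Y) (φ x_i) = 0` by
`Dd_diff`, so `X = Y` by `INV`. So it is surjective: `ax_grothendieck_univ`
(`Mathlib/FieldTheory/AxGrothendieck.lean`). -/
def S_SUR : Prop := ∀ (K : Type u) [Field K] (n : ℕ) (φ : FA K n →ₐ[K] FA K n), INV φ →
  ∀ (L : Type u) [Field L] [IsAlgClosed L] [Algebra K L] (p : Type) [Fintype p] [DecidableEq p]
    (Z : Fin n → Matrix p p L), ∃ X : Fin n → Matrix p p L, ∀ i, ev X (φ (FreeAlgebra.ι K i)) = Z i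

/-! ## Part 3: linear algebra over division rings -/

/-- Piece NIL (80 lines, Mathlib only). `E` a division ring, `N_1, …, N_n ∈ M_m(E)`. Either all products of
length `m` vanish or there are `ρ`, `G ≠ 0` and `T_i` with `G = ∑ T_i G N_i`.
Proof. Row vectors `V_0 = E^m` (left vector space `Fin m → E`), `V_(k+1) = ∑_i V_k N_i` (the span of the
`v ᵥ* N_i`, `v ∈ V_k`; `Matrix.vecMulLinear` is left linear). `V_(k+1) ≤ V_k` (induction). If the product
over some word `w` of length `m` is not zero then `V_m ≠ 0` (it contains the rows of the product). The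
dimensions are `≤ m` and `≥ 1` for `k = 0, …, m`, so `V_(k+1) = V_k =: V ≠ 0` for some `k < m` (otherwise
the dimension drops `m` times from `m`). Let the rows `g_1, …, g_ρ` of `G` be a basis (or a finite
generating family) of `V`; `g_a ∈ V = ∑ V N_i`, so `g_a = ∑_i (∑_b T_i[a,b] g_b) N_i`. -/
def S_NIL : Prop := ∀ (E : Type u) [DivisionRing E] (n m : ℕ) (N : Fin n → Matrix (Fin m) (Fin m) E),
  (∀ w : List (Fin n), w.length = m → (w.map N).prod = 0) ∨
  ∃ (ρ : ℕ) (G : Matrix (Fin ρ) (Fin m) E) (T : Fin n → Matrix (Fin ρ) (Fin ρ) E), G ≠ 0 ∧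
    G = ∑ i, T i * G * N i

/-- Piece EQA (200 lines, Mathlib only). The cyclic algebra of `(L, σ)` over Laurent series is a division
algebra. `σ` a `K`-automorphism of the field `L`, `σ^q = 1`. Let `C = LaurentSeries L = L⸨τ⸩`,
`j : L → C` the constants, `σ` acting on `C` coefficientwise, `U ∈ M_q(C)`, `U[i,i+1] = 1`,
`U[q-1,0] = τ`, `E = {M | σ(M) U = U M}` (`σ(M)` entrywise). It is a subalgebra. `M ∈ E` means
`M[i+1,k+1] = σ(M[i,k])`, `M[i+1,0] = τ σ(M[i,q-1])`, so `M` is given by its first row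
`a_0, …, a_(q-1)`: `M[i,k] = σ^i(a_(k-i))` for `k ≥ i` and `τ σ^i(a_(q+k-i))` for `k < i`; and
`diag(a, σa, …) U ∈ E`. If `M ≠ 0` then `det M ≠ 0`: let `l` be the index with `a_l ≠ 0` and
`q · ord(a_l) + l` minimal (these numbers are distinct). Multiply `M` by `U^(q-l)` (which is in `E` and
invertible) and by a power of `τ`: so one may assume `l = 0`, `ord(a_0) = 0`, and then `ord(a_k) ≥ 0` for all
`k` (from the minimality). Then all entries are power series, and modulo `τ` the matrix is upper triangular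
with the diagonal `σ^i(a_0(0)) ≠ 0`, so the constant coefficient of the determinant is not zero. Finally
`M⁻¹ ∈ E` because `σ(M⁻¹) = σ(M)⁻¹ = (U M U⁻¹)⁻¹`. -/
def S_EQA : Prop := ∀ (K : Type u) [Field K] (L : Type u) [Field L] [Algebra K L] (σ : L ≃ₐ[K] L)
  (q : ℕ), 0 < q → (∀ x, (σ ^ q) x = x) →
  ∃ (C : Type u) (_ : Field C) (_ : Algebra K C) (j : L →ₐ[K] C) (τ : C)
    (E : Subalgebra K (Matrix (Fin q) (Fin q) C)),
    (∀ M ∈ E, M ≠ 0 → ∃ M' ∈ E, M * M' = 1 ∧ M' * M = 1) ∧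
    ∀ a : L, (Matrix.of fun i k : Fin q => if (k : ℕ) = (i : ℕ) + 1 then j ((σ ^ (i : ℕ)) a)
      else if (i : ℕ) + 1 = q ∧ (k : ℕ) = 0 then j ((σ ^ (i : ℕ)) a) * τ else 0) ∈ E

/-- Piece EQ (120 lines, uses `S_EQA`). Every `b ≠ 0` of the free algebra is not zero at some point of a
division algebra which has a matrix representation over a commutative field. Let `q` be larger than the
lengths of the words in `b` (`FreeAlgebra.equivMonoidAlgebraFreeMonoid`), `L` the fraction field of the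
polynomial ring `K[t_(j,i)]`, `j : Fin n`, `i : ZMod q`, `σ(t_(j,i)) = t_(j,i+1)` (`MvPolynomial.renameEquiv`
and the fraction field), `E` the algebra of EQA (a division ring: `DivisionRing.ofIsUnitOrEqZero` on the
subalgebra), `Y_j = diag(t_(j,0), t_(j,1), …) U`, i.e. the matrix of EQA for `a = t_(j,0)`. The entry `(0, k)`,
`k < q`, of `Y_(w_0) ⋯ Y_(w_(l-1))`, `l < q`, is `t_(w_0,0) t_(w_1,1) ⋯ t_(w_(l-1),l-1)` if `k = l` and zero
otherwise. These monomials are distinct for distinct words of length `l < q`, so they are linearly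
independent over `K` and the first row of `b(Y)` is not zero. -/
def S_EQ : Prop := ∀ (K : Type u) [Field K] (n : ℕ) (b : FA K n), b ≠ 0 →
  ∃ (E : Type u) (_ : DivisionRing E) (_ : Algebra K E) (C : Type u) (_ : Field C) (_ : Algebra K C)
    (q : ℕ) (j : E →ₐ[K] Matrix (Fin q) (Fin q) C) (Y : Fin n → E), 0 < q ∧
    FreeAlgebra.lift K Y b ≠ 0

/-- Piece HIG (120 lines, Mathlib only). Higman's linearization. Say that a matrix has degree `≤ d` if its
entries are in `(K + ∑ K z_i)^d` (a power of a submodule; every matrix has some degree). Every `M` of degree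
`≤ d+1`, `d ≥ 1`, is `M = M_0 + ∑_i z_i G_i` with `M_0` constant and `G_i` of degree `≤ d` (square matrices
of the same size), i.e. `M = M_0 + B C`, `B = [z_1 1, …, z_r 1]`, `C = [G_1; …; G_r]`, and
`[[1, B], [0, 1]] * [[M, 0], [0, 1]] * [[1, 0], [-C, 1]] = [[M - B C, B], [-C, 1]]` has degree `≤ d`. Induction
on `d` (index types `Fin n ⊕ Fin k`; one may prove it first for arbitrary finite index types in `Type`, with
`κ : Type`, and reindex at the end). -/
def S_HIG : Prop := ∀ (K : Type u) [Field K] (ι : Type) [Fintype ι] [DecidableEq ι] (n : ℕ)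
  (M : Matrix (Fin n) (Fin n) (FreeAlgebra K ι)),
  ∃ (k : ℕ) (U V : Matrix (Fin n ⊕ Fin k) (Fin n ⊕ Fin k) (FreeAlgebra K ι))
    (P₀ : Matrix (Fin n ⊕ Fin k) (Fin n ⊕ Fin k) K)
    (P : ι → Matrix (Fin n ⊕ Fin k) (Fin n ⊕ Fin k) K), IsUnit U ∧ IsUnit V ∧
    U * fromBlocks M 0 0 1 * V = P₀.map (algebraMap K (FreeAlgebra K ι)) +
      ∑ i, (P i).map fun c => c • FreeAlgebra.ι K i

/-! ## Part 4: the Jacobian matrix is invertible -/

/-- The enveloping algebra. -/
abbrev RR (K : Type u) [Field K] (n : ℕ) : Type u := FA K n ⊗[K] (FA K n)ᵐᵒᵖ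

section

variable {K : Type u} [Field K] {n : ℕ}

/-- `a ⊗ 1` -/
noncomputable def lft (a : FA K n) : RR K n := a ⊗ₜ[K] 1

/-- `1 ⊗ aᵒᵖ` -/
noncomputable def rgt (a : FA K n) : RR K n := 1 ⊗ₜ[K] (op a)

/-- The universal derivations `∇_j w = ∑ u ⊗ vᵒᵖ` over `w = u x_j v`. -/
structure IsNab (nab : Fin n → (FA K n →ₗ[K] RR K n)) : Prop where
  gen : ∀ j i, nab j (FreeAlgebra.ι K i) = if i = j then 1 else 0
  mul : ∀ j a b, nab j (a * b) = lft a * nab j b + rgt b * nab j a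

/-- The Jacobian matrix. -/
noncomputable def Jac (nab : Fin n → (FA K n →ₗ[K] RR K n)) (φ : FA K n →ₐ[K] FA K n) :
    Matrix (Fin n) (Fin n) (RR K n) := Matrix.of fun i j => nab j (φ (FreeAlgebra.ι K i))

end

/-- Piece NAB (60 lines). Existence of the universal derivations. Let `Θ_j : A → End_K(A × R)` be the
algebra map with `x_l ↦ ((b, t) ↦ (x_l b, δ_jl • rgt b + lft x_l * t))`; by induction on `a`
`Θ_j(a)(b, t) = (a b, rgt b * s_a + lft a * t)` with `s_a = (Θ_j(a)(1, 0)).2`, and `∇_j a = s_a`. -/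
def S_NAB : Prop := ∀ (K : Type u) [Field K] (n : ℕ),
  ∃ nab : Fin n → (FA K n →ₗ[K] RR K n), IsNab nab

/-- Piece ACT (80 lines). `R = A ⊗ Aᵒᵖ` acts on the matrices `p × q`: `a ⊗ bᵒᵖ` by `M ↦ a(X) M b(Y)`
(`Algebra.TensorProduct.lift` of two commuting algebra maps to `Module.End K (Matrix p q S)`), and
`∑ ∇_j(a) H_j = Dd X Y H a` (induction on `a`, `Dd_mul`; `∇_j 1 = 0` follows from `mul`). -/
def S_ACT : Prop := ∀ (K : Type u) [Field K] (n : ℕ) (S : Type u) [CommRing S] [Algebra K S]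
  (p q : Type) [Fintype p] [DecidableEq p] [Fintype q] [DecidableEq q]
  (X : Fin n → Matrix p p S) (Y : Fin n → Matrix q q S),
  ∃ ρ : RR K n →ₐ[K] Module.End K (Matrix p q S),
    (∀ a M, ρ (lft a) M = ev X a * M) ∧ (∀ b M, ρ (rgt b) M = M * ev Y b) ∧
    ∀ nab : Fin n → (FA K n →ₗ[K] RR K n), IsNab nab →
      ∀ (H : Fin n → Matrix p q S) (a : FA K n), ∑ j, ρ (nab j a) (H j) = Dd X Y H a

/-- The pencil `1 - ∑ C_j x_j - ∑ C'_j y_j` is injective at all pairs of tuples of matrices. -/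
def PenInj {K : Type u} [Field K] {n m : ℕ} (C C' : Fin n → Matrix (Fin m) (Fin m) K) : Prop :=
  ∀ (S : Type u) [Field S] [Algebra K S] (p q : Type) [Fintype p] [DecidableEq p] [Fintype q]
    [DecidableEq q] (X : Fin n → Matrix p p S) (Y : Fin n → Matrix q q S) (v : Fin m → Matrix p q S),
    (∀ a, v a = ∑ j, ∑ b, (C j a b • (X j * v b) + C' j a b • (v b * Y j))) → v = 0

/-- The pencil over `R = A ⊗ Aᵒᵖ`. -/
noncomputable def Pen {K : Type u} [Field K] {n m : ℕ} (C C' : Fin n → Matrix (Fin m) (Fin m) K) :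
    Matrix (Fin m) (Fin m) (RR K n) :=
  1 - ∑ j, (C j).map (fun c => c • lft (FreeAlgebra.ι K j)) -
    ∑ j, (C' j).map (fun c => c • rgt (FreeAlgebra.ι K j))

/-- Piece PEN (150 lines, uses `S_HIG`, `S_ACT`). Linearization of the Jacobian matrix.
Let `F` be the free algebra on `Fin n ⊕ Fin n` and `π : F → R` the algebra map `x_j ↦ lft x_j`,
`y_j ↦ rgt x_j`; it is surjective (the image contains all `lft a * rgt b = a ⊗ bᵒᵖ`). Let `Ĵ ∈ M_n(F)` be
a lift of `Jac nab φ`, and apply HIG to it: `U (Ĵ ⊕ 1) V = P` with `P = P₀ + ∑ P_j x_j + ∑ P'_j y_j`.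
Apply the counit `F → K`: `P₀ = U(0) (Ĵ(0) ⊕ 1) V(0)`, and `Ĵ(0)` is injective as a matrix over `K`: it is
the derivative at `X = Y = 0`, `p = q = Unit`, `C = K` (ACT and `INV`; `ρ ∘ π` for `X = Y = 0` is the
counit acting by scalars). So `P₀` is invertible; let `C_j = -P₀⁻¹ P_j`, `C'_j = -P₀⁻¹ P'_j`, so
`P = P₀ Pen`, after reindexing `Fin n ⊕ Fin k ≃ Fin m`. `PenInj`: for `X`, `Y` over the field `S` the
algebra map `ρ ∘ π : F → End` of ACT applied to the entries of matrices gives operators on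
`Fin m → Matrix p q S`; `(ρπ)(P) v = 0` implies `(ρπ)(Ĵ ⊕ 1) (V⁻¹ v) = 0`, so `V⁻¹ v = 0` by `INV` and ACT, and
`v = 0`. Last claim: if `Pen` is invertible over `R` then so is `Jac ⊕ 1`, and the corner of the inverse is
the inverse of `Jac`. -/
def S_PEN : Prop := ∀ (K : Type u) [Field K] (n : ℕ) (nab : Fin n → (FA K n →ₗ[K] RR K n)),
  IsNab nab → ∀ φ : FA K n →ₐ[K] FA K n, INV φ →
  ∃ (m : ℕ) (C C' : Fin n → Matrix (Fin m) (Fin m) K), PenInj C C' ∧
    (IsUnit (Pen C C') → IsUnit (Jac nab φ))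

/-- The matrix `Q = 1 - ∑ C'_jᵀ x_j` over `A`. -/
noncomputable def QQ {K : Type u} [Field K] {n m : ℕ} (C' : Fin n → Matrix (Fin m) (Fin m) K) :
    Matrix (Fin m) (Fin m) (FA K n) := 1 - ∑ j, (C' j)ᵀ.map (fun c => c • FreeAlgebra.ι K j)

/-- Piece NM1 (80 lines, uses `S_NIL` for `E = K`). The `C'_j` are nilpotent and `Q` is invertible.
If a product `C'ᵀ_w`, `|w| = m`, is not zero, NIL gives `G ≠ 0` in `M_(ρ,m)(K)` and `T_j` with
`G = ∑ T_j G C'_jᵀ`. Let `p = Unit`, `X = 0`, `q = Fin ρ`, `Y_j = T_jᵀ`, `v_b = ` the row `(G_(1,b), …,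
G_(ρ,b))`: then `v_a = ∑_j ∑_b C'_j[a,b] v_b Y_j`, so `v = 0` by `PenInj` (with `S = K`), contradiction. So all
products of length `m` vanish, `Z = ∑ C'_jᵀ x_j` has `Z^m = 0` and `Q = 1 - Z` is invertible
(`IsNilpotent.isUnit_one_sub`). -/
def S_NM1 : Prop := ∀ (K : Type u) [Field K] (n m : ℕ) (C C' : Fin n → Matrix (Fin m) (Fin m) K),
  PenInj C C' → IsUnit (QQ C')

/-- Piece NM2 (150 lines, uses `S_NIL` and `S_EQ`). Let `Q Q' = Q' Q = 1`, `N_i = C_iᵀ Q' ∈ M_m(A)`. All
products of length `m` of the `N_i` vanish. Suppose that an entry `b` of such a product is not zero; EQ gives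
`E`, `C₁`, `q`, `j : E → M_q(C₁)`, `Y : Fin n → E` with `b(Y) ≠ 0`. Over the division ring `E` let
`N_i(Y) ∈ M_m(E)` be the values (apply `FreeAlgebra.lift K Y` to the entries); a product of length `m` is not
zero, so NIL gives `G ≠ 0` in `M_(ρ,m)(E)`, `T_i ∈ M_ρ(E)`, `G = ∑ T_i G N_i(Y)`. Multiply by `Q(Y)` from the
right: `G Q(Y) = ∑ T_i G C_iᵀ`, i.e. `G = ∑_i T_i G C_iᵀ + ∑_j G C'_jᵀ Y_j` (entrywise
`G[a,c] = ∑ T_i[a,a'] G[a',b] C_i[c,b] + ∑ G[a,b] Y_j C'_j[c,b]`). Apply `j`: let `p = Fin ρ × Fin q`,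
`X_i[(a,s),(a',s')] = j(T_i[a,a'])[s,s']`, `v_b[(a,s),t] = j(G[a,b])[s,t]`, and `j(Y_j)` in the place of
`Y_j`. This is the equation of `PenInj`, so `v = 0` and `G = 0` (`j` is injective: `E` is a division ring and
`0 < q`). Contradiction. -/
def S_NM2 : Prop := ∀ (K : Type u) [Field K] (n m : ℕ) (C C' : Fin n → Matrix (Fin m) (Fin m) K),
  PenInj C C' → ∀ Q' : Matrix (Fin m) (Fin m) (FA K n), QQ C' * Q' = 1 → Q' * QQ C' = 1 →
  ∀ w : List (Fin n), w.length = m →
    (w.map fun i => (C i)ᵀ.map (algebraMap K (FA K n)) * Q').prod = 0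

/-- Piece RU (100 lines). If all products of length `m` of the `N_i = C_iᵀ Q'` vanish then the pencil is
invertible over `R`. For `S ∈ M_m(A)` let `Ŝ[a,b] = rgt (S[b,a])`; then `Ŝ T̂ = (T S)^` and `1̂ = 1`. So `Q̂` is
invertible with inverse `(Q')^`, `(C_iᵀ)^ = C_i` (constants), and `Pen = Q̂ - ∑ lft(x_i) Ĉ_i
= Q̂ (1 - ∑ lft(x_i) N̂_i)`, as `lft(x_i)` commutes with the entries `rgt`, and
`(Q')^ (C_iᵀ)^ = (C_iᵀ Q')^ = N̂_i`. The matrix `Z = ∑ lft(x_i) N̂_i` satisfies
`Z^m = ∑_w lft(x_w) (N_(w reversed))^ = 0`, so `1 - Z` is invertible. (For the powers: by induction on `k`,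
`Z^k` is in the span of the matrices `lft(a) (product of k of the N_i)^`.) -/
def S_RU : Prop := ∀ (K : Type u) [Field K] (n m : ℕ) (C C' : Fin n → Matrix (Fin m) (Fin m) K)
  (Q' : Matrix (Fin m) (Fin m) (FA K n)), QQ C' * Q' = 1 → Q' * QQ C' = 1 →
  (∀ w : List (Fin n), w.length = m →
    (w.map fun i => (C i)ᵀ.map (algebraMap K (FA K n)) * Q').prod = 0) → IsUnit (Pen C C')

/-! ## Part 5: the end of the proof -/

/-- Piece FOX (120 lines). Fox derivatives. (i) `a = ε(a) + ∑ x_j d_j(a)` (`d_j` deletes the first letter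
`x_j`), uniqueness, (ii) the same from the left: `a = ε(a) + ∑ d'_j(a) x_j`, uniqueness; (iii)
`⋂ I^k = 0`; (iv) if the constant terms of all iterated `d_j` of `a` vanish then `a = 0`. Construction: `d'_j(a)`
is the entry `(0,1)` of the image of `a` under the algebra map `A → M_2(A)`, `x_l ↦ !![x_l, δ_jl; 0, 0]` (the
image of `a` is `!![a, d'_j a; 0, ε a]`), and `d_j(a)` the entry `(0,1)` for `x_l ↦ !![0, δ_jl; 0, x_l]`
(image `!![ε a, d_j a; 0, a]`); so `d_j(x_l b) = δ_jl b`, `d_j(ab) = d_j(a) b + ε(a) d_j(b)`. (iii), (iv): by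
`FreeAlgebra.equivMonoidAlgebraFreeMonoid`, or: the evaluation at the generic strictly upper triangular
matrices is injective on words of bounded length; or by (i) and a degree: `a ∈ (K + ∑ K x_i)^k` implies
`d_j(a) ∈ (K + ∑ K x_i)^(k-1)`; (iv) by induction on such a `k`; (iii): `d_j(I^(k+1)) ⊆ I^k`, so `a ∈ ⋂ I^k` is
mapped to `⋂ I^k ⊆ ker ε` by all `d_j`, and (iv) applies. -/
def S_FOX : Prop := ∀ (K : Type u) [Field K] (n : ℕ),
  ∃ d d' : Fin n → (FA K n →ₗ[K] FA K n),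
    (∀ a, a = algebraMap K (FA K n) (aug K n a) + ∑ j, FreeAlgebra.ι K j * d j a) ∧
    (∀ j a b, d j (a * b) = d j a * b + aug K n a • d j b) ∧
    (∀ c : Fin n → FA K n, ∑ j, FreeAlgebra.ι K j * c j = 0 → c = 0) ∧
    (∀ a, a = algebraMap K (FA K n) (aug K n a) + ∑ j, d' j a * FreeAlgebra.ι K j) ∧
    (∀ j a b, d' j (a * b) = a * d' j b + aug K n b • d' j a) ∧
    (∀ c : Fin n → FA K n, ∑ j, c j * FreeAlgebra.ι K j = 0 → c = 0) ∧
    (∀ a, (∀ k : ℕ, a ∈ augI K n ^ (k + 1)) → a = 0) ∧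
    (∀ a, (∀ w : List (Fin n), aug K n (w.foldl (fun b j => d j b) a) = 0) → a = 0)

/-- Piece FD (200 lines, uses `S_FOX`). Let `ε(φ(x_i)) = 0`, `f_i = φ(x_i)`, and `J = Jac nab φ`
invertible, `H = J⁻¹`. Let `ξ(a) = lft a - rgt a`; `ξ(a) = ∑ ∇_j(a) ξ(x_j)` (induction), so
`ξ(f_i) = ∑ J_ij ξ(x_j)` and (1) `ξ(x_j) = ∑_i H_ji ξ(f_i)`.
Left and right bases: apply `id ⊗ ε` to `J` and `ξ(f_i) = ∑ J_ij ξ(x_j)`: `f_i = ∑ D_ij x_j` with
`D ∈ GL_n(A)`; with FOX (ii): every `a` is `ε(a) + ∑ ∂'_l(a) f_l`, `∂'_l(a) = ∑_j d'_j(a) (D⁻¹)_jl`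
linear, `∂'_l(a f_i) = δ_il a`, `∂'_l(1) = 0`. In the same way (`ε ⊗ id`) every `a` is
`ε(a) + ∑ f_l ∂_l(a)` with unique `∂_l(a)`, linear in `a`; this gives the last claim.
For a linear form `λ` on `A` let `Λ_λ : R → A`, `a ⊗ bᵒᵖ ↦ λ(a) b`. Then
`Λ_λ(r · rgt b) = b Λ_λ(r)`, `Λ_λ(r · lft a) = Λ_(λ(· a))(r)`. Apply `Λ_λ` to (1):
(2) `λ(x_j) 1 - λ(1) x_j = ∑_i Λ_(λ(· f_i))(H_ji) - ∑_i f_i Λ_λ(H_ji)`.
`λ = ε`: `x_j = ∑ f_l Λ_ε(H_jl)`. For any `λ` and `i` apply (2) to `λ' = λ ∘ ∂'_i`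
(`λ'(a f_l) = δ_il λ(a)`, `λ'(1) = 0`): `Λ_λ(H_ji) = λ'(x_j) + ∑_l f_l Λ_λ'(H_jl)`. So
`∂_l(x_j) = Λ_ε(H_jl)`, `∂_l(Λ_λ(H_ji)) = Λ_λ'(H_jl)`, and the space `W` spanned by the `x_j` and all
`Λ_λ(H_ji)` is stable under the `∂_l`; it is finite dimensional because `H_ji` is a finite sum of tensors
(`r ∈ R` fixed: all `Λ_λ(r)` are in the span of finitely many elements, by induction on `r`). -/
def S_FD : Prop := ∀ (K : Type u) [Field K] (n : ℕ) (nab : Fin n → (FA K n →ₗ[K] RR K n)),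
  IsNab nab → ∀ φ : FA K n →ₐ[K] FA K n, (∀ i, aug K n (φ (FreeAlgebra.ι K i)) = 0) →
  IsUnit (Jac nab φ) →
  (∃ (W : Submodule K (FA K n)) (D : Fin n → (W →ₗ[K] W)), Module.Finite K W ∧
    (∀ i, FreeAlgebra.ι K i ∈ W) ∧
    ∀ a : W, (a : FA K n) = algebraMap K (FA K n) (aug K n (a : FA K n)) +
      ∑ l, φ (FreeAlgebra.ι K l) * (D l a : FA K n)) ∧
  ∀ c : Fin n → FA K n, ∑ l, φ (FreeAlgebra.ι K l) * c l = 0 → c = 0

/-- Piece SPAN (150 lines, uses `S_FOX` (iii)). Let `T_Z(E)(a) = ∑ Z_j E(D_j a)` on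
`Hom_K(W, M_p(L))`, a finite dimensional `L`-space. We show that `1 - T_Z` is surjective, hence injective. For
a linear form `η` on `W` let `P(η)` be: for all `p` and all `Z` there is `E` with
`E(a) - ∑ Z_j E(D_j a) = η(a) 1` for all `a ∈ W`. (i) `P(ε)`: let `X` be a tuple with `ev X (φ x_i) = Z_i`
(hypothesis) and `E(a) = ev X a`, by the decomposition of `a`. (ii) `P(η)` implies `P(η ∘ D_i)` : apply
`P(η)` to `p ⊕ p` and `Z̃_l = [[Z_l, δ_li 1], [0, 0]]`, `Ẽ = [[E11, E12], [E21, E22]]`: the second row gives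
`E22(a) = η(a) 1`, and `E12(a) - ∑ Z_l E12(D_l a) = E22(D_i a) = η(D_i a) 1`. (iii) So `P(η)` for all `η`:
the forms `ε ∘ D_w` span the dual of `W`, because if `a ∈ W` is killed by all of them then
`a = ∑ φ(x_l) D_l(a) = … = ∑_(|w| = k) φ(x)_w D_w(a)` is in `I^(k+1)` for all `k` (`D_w(a) ∈ I`), so
`a = 0` (FOX); and `P` is closed under linear
combinations (`K`). (iv) Multiply `E` by a matrix `C` from the right: all `a ↦ η(a) C` are in the range, and
these span `Hom_K(W, M_p(L))` over `K` (basis of `W`). -/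
def S_SPAN : Prop := ∀ (K : Type u) [Field K] (n : ℕ) (φ : FA K n →ₐ[K] FA K n),
  (∀ i, aug K n (φ (FreeAlgebra.ι K i)) = 0) →
  ∀ (W : Submodule K (FA K n)) [Module.Finite K W] (D : Fin n → (W →ₗ[K] W)),
  (∀ a : W, (a : FA K n) = algebraMap K (FA K n) (aug K n (a : FA K n)) +
      ∑ l, φ (FreeAlgebra.ι K l) * (D l a : FA K n)) →
  ∀ (L : Type u) [Field L] [Algebra K L],
  (∀ (p : Type) [Fintype p] [DecidableEq p] (Z : Fin n → Matrix p p L),
    ∃ X : Fin n → Matrix p p L, ∀ i, ev X (φ (FreeAlgebra.ι K i)) = Z i) →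
  ∀ (p : Type) [Fintype p] [DecidableEq p] (Z : Fin n → Matrix p p L) (E : W →ₗ[K] Matrix p p L),
    (∀ a : W, E a = ∑ j, Z j * E (D j a)) → E = 0

/-- Piece FIN (80 lines, uses `S_NIL` for `E = K`). Let `m = dim W`, `N_j ∈ M_m(K)` the matrix of `D_j` in a
basis. If a product of length `m` is not zero, NIL gives `G ≠ 0`, `T_j` with `G = ∑ T_j G N_j`. Let
`E : W → M_ρ(L)` map the basis vector `b_c` to the matrix whose columns are all equal to the column `c` of `G`
(with entries mapped to `L`; `0 < ρ` since `G ≠ 0`). Then `E(a) = ∑ T_j E(D_j a)`, `E ≠ 0`, contradiction. So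
all `D_w`, `|w| = m`, vanish, and `a ∈ range φ` for `a ∈ W`: by induction on `k`, if `D_w a = 0` for all
`|w| = k` then `a ∈ range φ`, from `a = ε(a) + ∑ φ(x_l) D_l(a)`. -/
def S_FIN : Prop := ∀ (K : Type u) [Field K] (n : ℕ) (φ : FA K n →ₐ[K] FA K n)
  (W : Submodule K (FA K n)) [Module.Finite K W] (D : Fin n → (W →ₗ[K] W)),
  (∀ a : W, (a : FA K n) = algebraMap K (FA K n) (aug K n (a : FA K n)) +
      ∑ l, φ (FreeAlgebra.ι K l) * (D l a : FA K n)) →
  ∀ (L : Type u) [Field L] [Algebra K L],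
  (∀ (p : Type) [Fintype p] [DecidableEq p] (Z : Fin n → Matrix p p L) (E : W →ₗ[K] Matrix p p L),
    (∀ a : W, E a = ∑ j, Z j * E (D j a)) → E = 0) →
  ∀ a ∈ W, a ∈ φ.range

/-- Piece INJ (40 lines, uses `S_FOX` (i), (iv)). If `ε(φ(x_i)) = 0` and the `φ(x_i)` are right independent
then `φ` is injective: let `φ(a) = 0`; `0 = φ(a) = ε(a) + ∑ φ(x_j) φ(d_j a)`; apply `ε`: `ε(a) = 0`
(`ε ∘ φ = ε`), so `φ(d_j a) = 0` for all `j`. So the kernel is stable under the `d_j` and contained in the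
kernel of `ε`; by (iv) it is zero. -/
def S_INJ : Prop := ∀ (K : Type u) [Field K] (n : ℕ) (φ : FA K n →ₐ[K] FA K n),
  (∀ i, aug K n (φ (FreeAlgebra.ι K i)) = 0) →
  (∀ c : Fin n → FA K n, ∑ l, φ (FreeAlgebra.ι K l) * c l = 0 → c = 0) →
  Function.Injective φ

/-- The main theorem (helper28 assembles it). -/
def S_MAIN : Prop := ∀ (K : Type u) [Field K] (n : ℕ) (φ : FA K n →ₐ[K] FA K n), INV φ →
  Function.Bijective φ

end Pool.Agent.Helper28H.GE
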